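import Pool.Agent.P.MP_0bb74b_gt.Defs

/-! Algebraic preliminaries: braid identities, specialisation, powers, continuity. -/

namespace Pool.Agent.P.MP_0bb74b_gt

open Matrix Filter Topology

lemma rho_σ {R : Type} [CommRing R] (A : Rˣ) (i : Fin 4) : rho A (σ i) = gen A i :=
  PresentedGroup.toGroup.of _

lemma sp_σ (i : Fin 4) : sp (σ i) = transv i := PresentedGroup.toGroup.of _

lemma σ_comm (i j : Fin 4) (h : i.val + 1 < j.val) : σ i * σ j = σ j * σ i :=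
  PresentedGroup.mk_eq_mk_of_mul_inv_mem (rels := rels) (x := FreeGroup.of i * FreeGroup.of j)
    (y := FreeGroup.of j * FreeGroup.of i) ⟨i, j, Or.inl ⟨h, rfl⟩⟩

lemma σ_braid (i j : Fin 4) (h : i.val + 1 = j.val) : σ i * σ j * σ i = σ j * σ i * σ j :=
  PresentedGroup.mk_eq_mk_of_mul_inv_mem (rels := rels)
    (x := FreeGroup.of i * FreeGroup.of j * FreeGroup.of i)
    (y := FreeGroup.of j * FreeGroup.of i * FreeGroup.of j) ⟨i, j, Or.inr ⟨h, rfl⟩⟩

lemma closure_σ : Subgroup.closure (Set.range σ) = ⊤ := PresentedGroup.closure_range_of rels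

/-- The braid `σ_1 σ_2 σ_3`. -/
def del : B5 := σ 0 * σ 1 * σ 2

lemma del_0 : del * σ 0 = σ 1 * del := by
  have h1 := σ_comm 0 2 (by decide)
  have h2 := σ_braid 0 1 (by decide)
  calc del * σ 0 = σ 0 * σ 1 * (σ 2 * σ 0) := by simp only [del, mul_assoc]
    _ = (σ 0 * σ 1 * σ 0) * σ 2 := by rw [← h1]; simp only [mul_assoc]
    _ = σ 1 * del := by rw [h2]; simp only [del, mul_assoc]

lemma del_1 : del * σ 1 = σ 2 * del := by
  have h1 := σ_comm 0 2 (by decide)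
  have h2 := σ_braid 1 2 (by decide)
  calc del * σ 1 = σ 0 * (σ 1 * σ 2 * σ 1) := by simp only [del, mul_assoc]
    _ = (σ 0 * σ 2) * σ 1 * σ 2 := by rw [h2]; simp only [mul_assoc]
    _ = σ 2 * del := by rw [h1]; simp only [del, mul_assoc]

lemma del_2 : del * del * σ 2 = σ 0 * (del * del) := by
  have h1 := σ_comm 0 2 (by decide)
  have h2 := σ_braid 0 1 (by decide)
  have h3 := σ_braid 1 2 (by decide)
  calc del * del * σ 2 = σ 0 * σ 1 * (σ 2 * σ 0) * σ 1 * σ 2 * σ 2 := by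
        simp only [del, mul_assoc]
    _ = σ 0 * σ 1 * σ 0 * (σ 2 * σ 1 * σ 2) * σ 2 := by rw [← h1]; simp only [mul_assoc]
    _ = σ 0 * (σ 1 * σ 0 * σ 1) * σ 2 * σ 1 * σ 2 := by rw [← h3]; simp only [mul_assoc]
    _ = σ 0 * σ 0 * σ 1 * (σ 0 * σ 2) * σ 1 * σ 2 := by rw [← h2]; simp only [mul_assoc]
    _ = σ 0 * (del * del) := by rw [h1]; simp only [del, mul_assoc]

lemma del_sq_0 : del * del * σ 0 = σ 2 * (del * del) := by
  rw [mul_assoc, del_0, ← mul_assoc, del_1, mul_assoc]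

lemma del4_eq : del ^ 4 = (del * del) * (del * del) := by
  simp only [pow_succ, pow_zero, one_mul, mul_assoc]

lemma del4_0 : Commute (σ 0) (del ^ 4) := by
  rw [del4_eq]
  show σ 0 * _ = _ * σ 0
  rw [mul_assoc (del * del) (del * del), del_sq_0, ← mul_assoc (del * del) (σ 2), del_2,
    mul_assoc (σ 0)]

lemma del4_2 : Commute (σ 2) (del ^ 4) := by
  rw [del4_eq]
  show σ 2 * _ = _ * σ 2
  rw [mul_assoc (del * del) (del * del), del_2, ← mul_assoc (del * del) (σ 0), del_sq_0,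
    mul_assoc (σ 2)]

/-! ### Specialisation -/

lemma rho_map {R S : Type} [CommRing R] [CommRing S] (f : R →+* S) (A : Rˣ) (β : B5) :
    GeneralLinearGroup.map f (rho A β) = rho (Units.map f.toMonoidHom A) β := by
  have : (GeneralLinearGroup.map f).comp (rho A) = rho (Units.map f.toMonoidHom A) := by
    refine PresentedGroup.ext fun i => ?_
    show GeneralLinearGroup.map f (rho A (σ i)) = rho _ (σ i)
    rw [rho_σ, rho_σ]
    ext p q
    rw [GeneralLinearGroup.map_apply]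
    simp only [gen, tl, loop, Matrix.add_apply, Matrix.smul_apply, Matrix.one_apply, of_apply,
      smul_eq_mul, map_add, map_mul, apply_ite f, map_one, map_zero, map_sub, map_neg, map_pow]
    rfl
  exact DFunLike.congr_fun this β

open LaurentPolynomial in
lemma specialise (A : ℂˣ) (hA : Transcendental ℚ (A : ℂ)) (B : ℂˣ) (β : B5)
    (h : rho A β = 1) : rho B β = 1 := by
  let T0 : (LaurentPolynomial ℚ)ˣ := (isUnit_T (R := ℚ) 1).unit
  have hT : ∀ C : ℂˣ, Units.map (eval₂ (algebraMap ℚ ℂ) C).toMonoidHom T0 = C := by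
    intro C
    ext1
    show eval₂ (algebraMap ℚ ℂ) C (T 1) = C
    rw [eval₂_T]; simp
  have hinj : Function.Injective (eval₂ (algebraMap ℚ ℂ) A) := by
    rw [injective_iff_map_eq_zero]
    intro f hf
    obtain ⟨n, p, hp⟩ := f.exists_T_pow
    have h1 : Polynomial.aeval (A : ℂ) p = 0 := by
      rw [Polynomial.aeval_def, ← eval₂_toLaurent, hp, map_mul, hf, zero_mul]
    have h2 : p = 0 := by
      by_contra hne
      exact hA ⟨p, hne, h1⟩
    rw [h2, map_zero] at hp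
    exact (isUnit_T (R := ℚ) n).mul_left_eq_zero.1 hp.symm
  have h0 : rho T0 β = 1 := by
    have h1 := rho_map (eval₂ (algebraMap ℚ ℂ) A) T0 β
    rw [hT, h] at h1
    refine Units.ext (Matrix.ext fun p q => hinj ?_)
    have := congrArg (fun g : GL (Fin 5) ℂ => g p q) h1
    simp only [GeneralLinearGroup.map_apply] at this
    rw [this]
    simp [Matrix.one_apply, apply_ite (eval₂ (algebraMap ℚ ℂ) A)]
  have h1 := rho_map (eval₂ (algebraMap ℚ ℂ) B) T0 β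
  rw [hT, h0, map_one] at h1
  exact h1.symm

/-! ### Powers -/

/-- Complex 5 by 5 matrices. -/
abbrev M5 : Type := Matrix (Fin 5) (Fin 5) ℂ

lemma zpow_form (g : GL (Fin 5) ℂ) (e : M5) (τ c m : ℂ) (hτ : τ ≠ 0) (hc : c ≠ 0) (hm : m ≠ 0)
    (he : e * e = τ • e) (hg : g.val = c • (τ • 1 + (m - 1) • e)) (n : ℤ) :
    ∃ c' : ℂ, c' ≠ 0 ∧ (g ^ n).val = c' • (τ • 1 + (m ^ n - 1) • e) := by
  have key : ∀ x y : ℂ, (τ • (1 : M5) + (x - 1) • e) * (τ • 1 + (y - 1) • e) =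
      τ • (τ • 1 + (x * y - 1) • e) := by
    intro x y
    simp only [mul_add, add_mul, smul_mul_assoc, mul_smul_comm, mul_one, one_mul, he]
    module
  have hinv : (g⁻¹).val = (c⁻¹ * τ⁻¹ * τ⁻¹) • (τ • 1 + (m⁻¹ - 1) • e) := by
    have h1 : g.val * ((c⁻¹ * τ⁻¹ * τ⁻¹) • (τ • 1 + (m⁻¹ - 1) • e)) = 1 := by
      rw [hg, smul_mul_smul_comm, key, mul_inv_cancel₀ hm, sub_self, zero_smul, add_zero,
        smul_smul, smul_smul]
      rw [show c * (c⁻¹ * τ⁻¹ * τ⁻¹) * τ * τ = 1 by field_simp, one_smul]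
    exact Units.inv_eq_of_mul_eq_one_right h1
  induction n using Int.induction_on with
  | zero => exact ⟨τ⁻¹, inv_ne_zero hτ, by simp [smul_smul, hτ]⟩
  | succ n ih =>
    obtain ⟨c', h0, h⟩ := ih
    refine ⟨c' * c * τ, by positivity, ?_⟩
    rw [_root_.zpow_add_one, Units.val_mul, h, hg, smul_mul_smul_comm, key, smul_smul,
      zpow_add_one₀ hm]
  | pred n ih =>
    obtain ⟨c', h0, h⟩ := ih
    refine ⟨c' * (c⁻¹ * τ⁻¹ * τ⁻¹) * τ, by positivity, ?_⟩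
    rw [_root_.zpow_sub_one, Units.val_mul, h, hinv, smul_mul_smul_comm, key, smul_smul,
      zpow_sub_one₀ hm]

/-- The matrix of `e_5`, the cap on the last top point and the bottom point. -/
def tl4 (τ : ℂ) : M5 := !![τ,0,1,0,1; 0,0,0,0,0; 0,0,0,0,0; 0,1,0,τ,0; 0,0,0,0,0]

lemma tl4_sq (τ : ℂ) : tl4 τ * tl4 τ = τ • tl4 τ := by
  ext p q; fin_cases p <;> fin_cases q <;> simp [tl4, Matrix.mul_apply, Fin.sum_univ_five]

/-- The ratio of the eigenvalues of a generator. -/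
noncomputable def mu (A : ℂˣ) : ℂ := -((A : ℂ)⁻¹) ^ 4

lemma mu_ne (A : ℂˣ) : mu A ≠ 0 := by simp [mu]

lemma loop_eq (A : ℂˣ) : loop A = -(A : ℂ) ^ 2 - ((A : ℂ)⁻¹) ^ 2 := by simp [loop]

lemma gen_val (A : ℂˣ) (i : Fin 4) :
    (gen A i).val = (A : ℂ) • 1 + ((A : ℂ)⁻¹) • tl (loop A) i := by simp [gen]

lemma gen_inv_val (A : ℂˣ) (i : Fin 4) :
    (gen A i)⁻¹.val = ((A : ℂ)⁻¹) • 1 + (A : ℂ) • tl (loop A) i := by
  show (gen A i).inv = _
  simp [gen]

lemma σ_zpow (A : ℂˣ) (hτ : loop A ≠ 0) (i : Fin 4) (n : ℤ) : ∃ c : ℂ, c ≠ 0 ∧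
    (rho A (σ i ^ n)).val = c • (loop A • 1 + (mu A ^ n - 1) • tl (loop A) i) := by
  rw [map_zpow, rho_σ]
  refine zpow_form _ _ _ ((A : ℂ) / loop A) _ hτ (div_ne_zero A.ne_zero hτ) (mu_ne A)
    (tl_sq _ i) ?_ n
  rw [gen_val]
  have := A.ne_zero
  match_scalars
  · field_simp
  · field_simp
    rw [loop_eq, mu]; field_simp; ring

lemma rho_del (A : ℂˣ) : (rho A del).val =
    !![0, (A : ℂ)⁻¹, 0, -(A : ℂ)⁻¹ ^ 3, -(A : ℂ)⁻¹ ^ 3; 0, 0, A, 0, -(A : ℂ)⁻¹ ^ 3;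
      0, 0, 0, 0, -(A : ℂ)⁻¹ ^ 5; -(A : ℂ)⁻¹ ^ 3, 0, (A : ℂ)⁻¹, 0, 0; 0, A, 0, 0, -(A : ℂ)⁻¹] := by
  have := A.ne_zero
  simp only [del, map_mul, rho_σ, Units.val_mul, gen_val, tl0, tl1, tl2, loop_eq]
  ext p q
  fin_cases p <;> fin_cases q <;>
    simp [Matrix.mul_apply, Fin.sum_univ_five, Matrix.one_apply] <;> field_simp <;>
    first | ring1 | (left; ring1)

lemma rho_del4 (A : ℂˣ) : (rho A (del ^ 4)).val =
    ((A : ℂ)⁻¹ ^ 4) • 1 + ((A : ℂ)⁻¹ ^ 6 - (A : ℂ)⁻¹ ^ 10) • tl4 (loop A) := by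
  have := A.ne_zero
  have h2 : (rho A (del * del)).val =
      !![(A : ℂ)⁻¹ ^ 6, -(A : ℂ)⁻¹ ^ 2, 1 - (A : ℂ)⁻¹ ^ 4, 0, 0; 0, -(A : ℂ)⁻¹ ^ 2, 0, 0, 0;
        0, -(A : ℂ)⁻¹ ^ 4, 0, 0, (A : ℂ)⁻¹ ^ 6; 0, -(A : ℂ)⁻¹ ^ 4, 0, (A : ℂ)⁻¹ ^ 6, 0;
        0, -1, (A : ℂ) ^ 2, 0, 0] := by
    rw [map_mul, Units.val_mul, rho_del]
    ext p q
    fin_cases p <;> fin_cases q <;>
      simp [Matrix.mul_apply, Fin.sum_univ_five] <;> field_simp <;> ring
  rw [del4_eq, map_mul, Units.val_mul, h2, loop_eq]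
  ext p q
  fin_cases p <;> fin_cases q <;>
    simp [tl4, Matrix.mul_apply, Fin.sum_univ_five] <;> field_simp <;> ring

lemma del_zpow (A : ℂˣ) (hτ : loop A ≠ 0) (n : ℤ) : ∃ c : ℂ, c ≠ 0 ∧
    (rho A ((del ^ 4) ^ n)).val = c • (loop A • 1 + ((mu A ^ 2) ^ n - 1) • tl4 (loop A)) := by
  rw [map_zpow]
  have := A.ne_zero
  refine zpow_form _ _ _ ((A : ℂ)⁻¹ ^ 4 / loop A) _ hτ (div_ne_zero (by simp) hτ)
    (pow_ne_zero _ (mu_ne A)) (tl4_sq _) ?_ n
  rw [rho_del4]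
  match_scalars
  · field_simp
  · field_simp
    rw [loop_eq, mu]; field_simp; ring

/-! ### Continuity in the parameter -/

lemma tendsto_loop {A : ℕ → ℂˣ} {B : ℂˣ} (h : Tendsto (fun n => (A n : ℂ)) atTop (𝓝 B)) :
    Tendsto (fun n => loop (A n)) atTop (𝓝 (loop B)) := by
  simp only [loop_eq]
  exact (h.pow 2).neg.sub ((h.inv₀ B.ne_zero).pow 2)

lemma continuous_tl (i : Fin 4) : Continuous fun τ : ℂ => tl τ i := by
  refine continuous_pi fun p => continuous_pi fun q => ?_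
  simp only [tl, of_apply]
  split_ifs <;> fun_prop

lemma tendsto_mat_mul {ι : Type} {l : Filter ι} {f g : ι → M5} {x y : M5} (hf : Tendsto f l (𝓝 x))
    (hg : Tendsto g l (𝓝 y)) : Tendsto (fun n => f n * g n) l (𝓝 (x * y)) := hf.mul hg

lemma tendsto_rho {A : ℕ → ℂˣ} {B : ℂˣ} (h : Tendsto (fun n => (A n : ℂ)) atTop (𝓝 B)) (β : B5) :
    Tendsto (fun n => (rho (A n) β).val) atTop (𝓝 (rho B β).val) := by
  have hl := fun i => ((continuous_tl i).tendsto _).comp (tendsto_loop h)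
  have hi := h.inv₀ B.ne_zero
  have hβ : β ∈ Subgroup.closure (Set.range σ) := by rw [closure_σ]; trivial
  induction hβ using Subgroup.closure_induction'' with
  | one => simp
  | mem x hx =>
    obtain ⟨i, rfl⟩ := hx
    simp only [rho_σ, gen_val]
    exact (h.smul_const _).add (hi.smul (hl i))
  | inv_mem x hx =>
    obtain ⟨i, rfl⟩ := hx
    simp only [map_inv, rho_σ, gen_inv_val]
    exact (hi.smul_const _).add (h.smul (hl i))
  | mul x y _ _ hx hy =>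
    simp only [map_mul, Units.val_mul]
    exact tendsto_mat_mul hx hy

end Pool.Agent.P.MP_0bb74b_gt
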