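import Mathlib

/-! The braid group on five strands, its action on the Temperley-Lieb module `V^5_1`, and its
action on the homology of the genus two double cover. -/

namespace Pool.Agent.P.MP_0bb74b_gt

open Matrix

/-- The braid relations; the generator `i` stands for `σ_{i+1}`. -/
def rels : Set (FreeGroup (Fin 4)) :=
  {r | ∃ i j : Fin 4,
    (i.val + 1 < j.val ∧ r = .of i * .of j * (.of j * .of i)⁻¹) ∨
    (i.val + 1 = j.val ∧ r = .of i * .of j * .of i * (.of j * .of i * .of j)⁻¹)}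

/-- The braid group `B_5`. -/
abbrev B5 : Type := PresentedGroup rels

/-- The generator `σ_{i+1}`. -/
def σ (i : Fin 4) : B5 := PresentedGroup.of i

/-- The five crossingless diagrams that span `V^5_1`. The points `0, …, 4` are the top points,
`5` is the bottom point, and `arcs d x` is the other end of the arc of `d` that starts at `x`. -/
def arcs : Fin 5 → Fin 6 → Fin 6 :=
  ![![1, 0, 3, 2, 5, 4], ![5, 2, 1, 4, 3, 0], ![1, 0, 5, 4, 3, 2], ![3, 2, 1, 0, 5, 4],
    ![5, 4, 3, 2, 1, 0]]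

/-- The diagram obtained by placing `e_{i+1}` on top of the diagram `p` (closed loop deleted):
the top points `l = i`, `r = i + 1` are joined, and so are their old partners. -/
def stack (i : Fin 4) (p : Fin 6 → Fin 6) : Fin 6 → Fin 6 :=
  let l : Fin 6 := ⟨i.val, by omega⟩
  let r : Fin 6 := ⟨i.val + 1, by omega⟩
  fun x => if x = l then r else if x = r then l else if x = p l then p r
    else if x = p r then p l else p x

/-- The matrix of `e_{i+1}` on `V^5_1` in the basis of diagrams: the column `d` has one nonzero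
entry, in the row of the stacked diagram; it is `τ` if a closed loop appears, and `1` if not. -/
def tl {R : Type} [CommRing R] (τ : R) (i : Fin 4) : Matrix (Fin 5) (Fin 5) R :=
  Matrix.of fun d' d => if arcs d' = stack i (arcs d) then
    (if arcs d ⟨i.val, by omega⟩ = ⟨i.val + 1, by omega⟩ then τ else 1) else 0

/-- The loop value `τ = - A ^ 2 - A ^ (-2)`. -/
def loop {R : Type} [CommRing R] (A : Rˣ) : R := -(A : R) ^ 2 - ((A⁻¹ : Rˣ) : R) ^ 2

section
variable {R : Type} [CommRing R]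

lemma tl0 (τ : R) : tl τ 0 = !![τ,0,0,1,1; 0,0,0,0,0; 0,1,τ,0,0; 0,0,0,0,0; 0,0,0,0,0] := by
  ext a b; fin_cases a <;> fin_cases b <;> rfl
lemma tl1 (τ : R) : tl τ 1 = !![0,0,0,0,0; 0,τ,1,0,1; 0,0,0,0,0; 1,0,0,τ,0; 0,0,0,0,0] := by
  ext a b; fin_cases a <;> fin_cases b <;> rfl
lemma tl2 (τ : R) : tl τ 2 = !![τ,0,1,1,0; 0,0,0,0,0; 0,0,0,0,0; 0,0,0,0,0; 0,1,0,0,τ] := by
  ext a b; fin_cases a <;> fin_cases b <;> rfl
lemma tl3 (τ : R) : tl τ 3 = !![0,0,0,0,0; 0,τ,0,1,1; 1,0,τ,0,0; 0,0,0,0,0; 0,0,0,0,0] := by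
  ext a b; fin_cases a <;> fin_cases b <;> rfl

lemma tl_sq (τ : R) (i : Fin 4) : tl τ i * tl τ i = τ • tl τ i := by
  fin_cases i <;> simp only [Fin.zero_eta, Fin.mk_one, Fin.reduceFinMk, tl0, tl1, tl2, tl3] <;>
    ext a b <;> fin_cases a <;> fin_cases b <;> simp [Matrix.mul_apply, Fin.sum_univ_five]

lemma tl_comm (τ : R) (i j : Fin 4) (h : i.val + 1 < j.val) :
    tl τ i * tl τ j = tl τ j * tl τ i := by
  fin_cases i <;> fin_cases j <;> simp at h <;>
    simp only [Fin.zero_eta, Fin.mk_one, Fin.reduceFinMk, tl0, tl1, tl2, tl3] <;>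
    ext a b <;> fin_cases a <;> fin_cases b <;> simp [Matrix.mul_apply, Fin.sum_univ_five]

lemma tl_adj (τ : R) (i j : Fin 4) (h : i.val + 1 = j.val) :
    tl τ i * tl τ j * tl τ i = tl τ i ∧ tl τ j * tl τ i * tl τ j = tl τ j := by
  fin_cases i <;> fin_cases j <;> simp at h <;>
    simp only [Fin.zero_eta, Fin.mk_one, Fin.reduceFinMk, tl0, tl1, tl2, tl3] <;>
    constructor <;>
    ext a b <;> fin_cases a <;> fin_cases b <;> simp [Matrix.mul_apply, Fin.sum_univ_five]

lemma gen_inv (a b : R) (h : a * b = 1) (e : Matrix (Fin 5) (Fin 5) R)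
    (he : e * e = (-a ^ 2 - b ^ 2) • e) : (a • 1 + b • e) * (b • 1 + a • e) = 1 := by
  simp only [mul_add, add_mul, smul_mul_assoc, mul_smul_comm, mul_one, one_mul, he]
  match_scalars
  · linear_combination h
  · linear_combination (-a ^ 2 - b ^ 2) * h

end

/-- The image `A + A⁻¹ e` of a generator, with inverse `A⁻¹ + A e`. -/
def gen {R : Type} [CommRing R] (A : Rˣ) (i : Fin 4) : GL (Fin 5) R where
  val := (A : R) • 1 + ((A⁻¹ : Rˣ) : R) • tl (loop A) i
  inv := ((A⁻¹ : Rˣ) : R) • 1 + (A : R) • tl (loop A) i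
  val_inv := gen_inv _ _ A.mul_inv _ (tl_sq _ i)
  inv_val := gen_inv _ _ A.inv_mul _ (by rw [tl_sq, loop]; congr 1; ring)

lemma gen_rels {R : Type} [CommRing R] (A : Rˣ) : ∀ r ∈ rels, FreeGroup.lift (gen A) r = 1 := by
  rintro r ⟨i, j, ⟨h, rfl⟩ | ⟨h, rfl⟩⟩
  · simp only [map_mul, map_inv, FreeGroup.lift_apply_of, mul_inv_eq_one]
    ext1
    simp only [Units.val_mul, gen, mul_add, add_mul, smul_mul_assoc, mul_smul_comm, mul_one,
      one_mul, tl_comm _ i j h]
    module
  · simp only [map_mul, map_inv, FreeGroup.lift_apply_of, mul_inv_eq_one]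
    ext1
    have h1 := A.mul_inv
    simp only [Units.val_mul, gen, mul_add, add_mul, smul_mul_assoc, mul_smul_comm, mul_one,
      one_mul, (tl_adj _ i j h).1, (tl_adj _ i j h).2, tl_sq]
    match_scalars
    · ring
    · rw [loop]; linear_combination (-(A : R) ^ 2 * ((A⁻¹ : Rˣ) : R) - ((A⁻¹ : Rˣ) : R) ^ 3) * h1
    · rw [loop]; linear_combination ((A : R) ^ 2 * ((A⁻¹ : Rˣ) : R) + ((A⁻¹ : Rˣ) : R) ^ 3) * h1
    · ring
    · ring

/-- The action of `B_5` on `V^5_1` with parameter `A`. -/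
def rho {R : Type} [CommRing R] (A : Rˣ) : B5 →* GL (Fin 5) R :=
  PresentedGroup.toGroup (gen_rels A)

/-- The intersection form on the first homology `ℤ ^ 4` of the genus two double cover, in the basis
of the lifts of the arcs of the four generators. -/
def form : Matrix (Fin 4) (Fin 4) ℤ := !![0, 1, 0, 0; -1, 0, 1, 0; 0, -1, 0, 1; 0, 0, -1, 0]

/-- The algebraic intersection number. -/
def inter (u v : Fin 4 → ℤ) : ℤ := u ⬝ᵥ form *ᵥ v

/-- The basis vector `a i`. -/
def a (i : Fin 4) : Fin 4 → ℤ := Pi.single i 1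

/-- The transvection `v ↦ v + inter (a i) v • a i`. -/
def transv (i : Fin 4) : GL (Fin 4) ℤ where
  val := 1 + vecMulVec (a i) (form i)
  inv := 1 - vecMulVec (a i) (form i)
  val_inv := by revert i; decide
  inv_val := by revert i; decide

lemma transv_rels : ∀ r ∈ rels, FreeGroup.lift transv r = 1 := by
  rintro r ⟨i, j, ⟨h, rfl⟩ | ⟨h, rfl⟩⟩ <;>
    simp only [map_mul, map_inv, FreeGroup.lift_apply_of, mul_inv_eq_one] <;>
    ext1 <;> simp only [Units.val_mul] <;> revert i j <;> decide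

/-- The action of `B_5` on the homology of the double cover. -/
def sp : B5 →* GL (Fin 4) ℤ := PresentedGroup.toGroup transv_rels

/-- The homology class of the lift of the arc of the half twist `h σ_1 h⁻¹`. -/
def cls (h : B5) : Fin 4 → ℤ := (sp h).val *ᵥ a 0

end Pool.Agent.P.MP_0bb74b_gt
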