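import Mathlib

/-! The leading coefficient of the exterior square pairing never vanishes. -/

namespace Pool.Agent.P.MP_0bb74b_gt

/-- Exponents of the ten eigenvalues on the exterior square. -/
def ex (a b c : ℤ) : Fin 10 → ℤ :=
  ![2 * a + b + c, a + 2 * b + c, a + b + 2 * c, a + b + c, a + b, a + c, b + c, a, b, c]

/-- Limits of the ten coefficients. -/
def cf (u v : ℤ) : Fin 10 → ℤ :=
  ![(u ^ 2) ^ 2, ((v - u) ^ 2) ^ 2, (v ^ 2) ^ 2, -2 * (u ^ 2 - u * v + v ^ 2) ^ 2,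
    -(u ^ 2 - (v - u) ^ 2) ^ 2, -(u ^ 2 - v ^ 2) ^ 2, -((v - u) ^ 2 - v ^ 2) ^ 2,
    2 * (v - u) ^ 2 * v ^ 2, 2 * u ^ 2 * v ^ 2, 2 * u ^ 2 * (v - u) ^ 2]

lemma sum_ten {M : Type} [AddCommMonoid M] (f : Fin 10 → M) :
    ∑ r, f r = f 0 + f 1 + f 2 + f 3 + f 4 + f 5 + f 6 + f 7 + f 8 + f 9 := by
  rw [Fin.sum_univ_succ, Fin.sum_univ_succ, Fin.sum_univ_eight]
  simp only [add_assoc]
  rfl

lemma two_sq_ne (u w : ℤ) (hu : u ≠ 0) : 2 * u ^ 2 - w ^ 2 ≠ 0 := by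
  intro h
  have h2 : IsSquare (2 : ℚ) := by
    refine ⟨(w : ℚ) / u, ?_⟩
    have hu' : (u : ℚ) ≠ 0 := by exact_mod_cast hu
    have h' : (2 * (u : ℚ) ^ 2 - (w : ℚ) ^ 2) = 0 := by exact_mod_cast h
    field_simp
    linarith
  rw [Rat.isSquare_ofNat_iff] at h2
  exact Nat.prime_two.prime.not_isSquare h2

lemma tie_key (a b c M : ℤ) (hne : ¬(a = 0 ∧ b = 0 ∧ c = 0)) (P Q R d : ℤ)
    (hP : 0 < P) (hQ : 0 < Q) (hR : 0 < R) (hPQ : P - Q ≠ 0) (hPR : P - R ≠ 0) (hQR : Q - R ≠ 0)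
    (h1 : 2 * P - Q ≠ 0) (h2 : 2 * P - R ≠ 0) (h3 : 2 * Q - P ≠ 0) (h4 : 2 * Q - R ≠ 0)
    (h5 : 2 * R - P ≠ 0) (h6 : 2 * R - Q ≠ 0)
    (her : P ^ 2 + Q ^ 2 + R ^ 2 = 2 * (P * Q + P * R + Q * R))
    (t0 t1 t2 t3 t4 t5 t6 t7 t8 t9 : ℤ)
    (hM : 2 * a + b + c = M ∨ a + 2 * b + c = M ∨ a + b + 2 * c = M ∨ a + b + c = M ∨ a + b = M ∨
      a + c = M ∨ b + c = M ∨ a = M ∨ b = M ∨ c = M)
    (e0 : 2 * a + b + c = M ∧ t0 = P ^ 2 ∨ 2 * a + b + c < M ∧ t0 = 0)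
    (e1 : a + 2 * b + c = M ∧ t1 = Q ^ 2 ∨ a + 2 * b + c < M ∧ t1 = 0)
    (e2 : a + b + 2 * c = M ∧ t2 = R ^ 2 ∨ a + b + 2 * c < M ∧ t2 = 0)
    (e3 : a + b + c = M ∧ t3 = d ∨ a + b + c < M ∧ t3 = 0)
    (e4 : a + b = M ∧ t4 = -(P - Q) ^ 2 ∨ a + b < M ∧ t4 = 0)
    (e5 : a + c = M ∧ t5 = -(P - R) ^ 2 ∨ a + c < M ∧ t5 = 0)
    (e6 : b + c = M ∧ t6 = -(Q - R) ^ 2 ∨ b + c < M ∧ t6 = 0)
    (e7 : a = M ∧ t7 = 2 * Q * R ∨ a < M ∧ t7 = 0)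
    (e8 : b = M ∧ t8 = 2 * P * R ∨ b < M ∧ t8 = 0)
    (e9 : c = M ∧ t9 = 2 * P * Q ∨ c < M ∧ t9 = 0) :
    t0 + t1 + t2 + t3 + t4 + t5 + t6 + t7 + t8 + t9 ≠ 0 := by
  have lin : ∀ {p : Prop}, (a = 0 ∧ b = 0 ∧ c = 0) → p := fun h => absurd h hne
  have pP : 0 < P ^ 2 := by positivity
  have pQ : 0 < Q ^ 2 := by positivity
  have pR : 0 < R ^ 2 := by positivity
  have pPQ : 0 < P * Q := by positivity
  have pPR : 0 < P * R := by positivity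
  have pQR : 0 < Q * R := by positivity
  have qPQ : 0 < (P - Q) ^ 2 := by positivity
  have qPR : 0 < (P - R) ^ 2 := by positivity
  have qQR : 0 < (Q - R) ^ 2 := by positivity
  have n1 := mul_ne_zero hQ.ne' h1
  have n2 := mul_ne_zero hR.ne' h2
  have n3 := mul_ne_zero hP.ne' h3
  have n4 := mul_ne_zero hR.ne' h4
  have n5 := mul_ne_zero hP.ne' h5
  have n6 := mul_ne_zero hQ.ne' h6
  clear hPQ hPR hQR h1 h2 h3 h4 h5 h6 lin
  intro h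
  have c3 : a + b + c < M := by
    clear h n1 n2 n3 n4 n5 n6 her pP pQ pR pPQ pPR pQR qPQ qPR qQR
    omega
  have z3 : t3 = 0 := by omega
  clear e3
  subst z3
  have fin : ∀ {x : ℤ}, x ≠ 0 → x = 0 → False := fun h h' => h h'
  rcases e0 with ⟨e0, rfl⟩ | ⟨e0, rfl⟩ <;> rcases e1 with ⟨e1, rfl⟩ | ⟨e1, rfl⟩ <;>
    rcases e2 with ⟨e2, rfl⟩ | ⟨e2, rfl⟩ <;> rcases e4 with ⟨e4, rfl⟩ | ⟨e4, rfl⟩ <;>
    rcases e5 with ⟨e5, rfl⟩ | ⟨e5, rfl⟩ <;> rcases e6 with ⟨e6, rfl⟩ | ⟨e6, rfl⟩ <;>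
    rcases e7 with ⟨e7, f7⟩ | ⟨e7, f7⟩ <;> rcases e8 with ⟨e8, f8⟩ | ⟨e8, f8⟩ <;>
    rcases e9 with ⟨e9, f9⟩ | ⟨e9, f9⟩ <;> subst f7 f8 f9 <;>
    first
    | (clear h n1 n2 n3 n4 n5 n6 her pP pQ pR pPQ pPR pQR qPQ qPR qQR fin; omega)
    | (clear hM hne; first
        | linarith
        | exact fin n1 (by linarith)
        | exact fin n2 (by linarith)
        | exact fin n3 (by linarith)
        | exact fin n4 (by linarith)
        | exact fin n5 (by linarith)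
        | exact fin n6 (by linarith))

lemma tie (a b c : ℤ) (hne : ¬(a = 0 ∧ b = 0 ∧ c = 0)) (u v : ℤ) (hu : u ≠ 0) (hw : v - u ≠ 0)
    (hv : v ≠ 0) (h1 : u ^ 2 ≠ (v - u) ^ 2) (h2 : u ^ 2 ≠ v ^ 2) (h3 : (v - u) ^ 2 ≠ v ^ 2) :
    ∃ M : ℤ, (∀ r, ex a b c r ≤ M) ∧ (∑ r, if ex a b c r = M then cf u v r else 0) ≠ 0 := by
  obtain ⟨r0, hr0⟩ := Finite.exists_max (ex a b c)
  refine ⟨ex a b c r0, hr0, ?_⟩
  have hM : ∃ r, ex a b c r = ex a b c r0 := ⟨r0, rfl⟩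
  generalize ex a b c r0 = M at hr0 hM
  have hc : ∀ r, (ex a b c r = M ∧ (if ex a b c r = M then cf u v r else 0) = cf u v r) ∨
      (ex a b c r < M ∧ (if ex a b c r = M then cf u v r else 0) = 0) := by
    intro r
    by_cases h : ex a b c r = M
    · exact Or.inl ⟨h, if_pos h⟩
    · exact Or.inr ⟨lt_of_le_of_ne (hr0 r) h, if_neg h⟩
  have key := tie_key a b c M hne (u ^ 2) ((v - u) ^ 2) (v ^ 2) _ (by positivity) (by positivity)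
    (by positivity) (sub_ne_zero.2 h1) (sub_ne_zero.2 h2) (sub_ne_zero.2 h3)
    (two_sq_ne _ _ hu) (two_sq_ne _ _ hu) (two_sq_ne _ _ hw) (two_sq_ne _ _ hw)
    (two_sq_ne _ _ hv) (two_sq_ne _ _ hv) (by ring) _ _ _ _ _ _ _ _ _ _
    (by obtain ⟨r, hr⟩ := hM; fin_cases r <;> simp [ex] at hr <;> omega)
    (hc 0) (hc 1) (hc 2) (hc 3) (hc 4) (hc 5) (hc 6) (hc 7) (hc 8) (hc 9)
  rw [sum_ten]
  exact key

lemma tie_bound (e k : Fin 10 → ℤ) (M : ℤ) (hM : ∀ r, e r ≤ M)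
    (hk : (∑ r, if e r = M then k r else 0) ≠ 0) (x : ℝ) (hx1 : 1 ≤ x)
    (hx : 2 * ∑ r, |(k r : ℝ)| ≤ x) :
    (∀ r, x ^ e r ≤ x ^ M) ∧ x ^ M / 2 ≤ |∑ r, (k r : ℝ) * x ^ e r| := by
  have hx0 : 0 < x := by linarith
  have hT : 0 < x ^ M := zpow_pos hx0 M
  refine ⟨fun r => zpow_le_zpow_right₀ hx1 (hM r), ?_⟩
  have hsplit : ∑ r, (k r : ℝ) * x ^ e r =
      ((∑ r, if e r = M then k r else 0 : ℤ) : ℝ) * x ^ M +
        ∑ r, if e r = M then 0 else (k r : ℝ) * x ^ e r := by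
    push_cast
    rw [Finset.sum_mul, ← Finset.sum_add_distrib]
    refine Finset.sum_congr rfl fun r _ => ?_
    split_ifs with h
    · rw [h, add_zero]
    · simp
  have h1 : (1 : ℝ) ≤ |((∑ r, if e r = M then k r else 0 : ℤ) : ℝ)| := by
    rw [← Int.cast_abs]
    exact_mod_cast Int.one_le_abs hk
  have h2 : |∑ r, if e r = M then 0 else (k r : ℝ) * x ^ e r| ≤ x ^ M / 2 := by
    refine (Finset.abs_sum_le_sum_abs _ _).trans ?_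
    have h3 : ∀ r, |if e r = M then 0 else (k r : ℝ) * x ^ e r| ≤ |(k r : ℝ)| * (x ^ M / x) := by
      intro r
      split_ifs with h
      · simp only [abs_zero]; positivity
      · rw [abs_mul, abs_of_pos (zpow_pos hx0 _), ← zpow_sub_one₀ hx0.ne' M |>.trans
          (div_eq_mul_inv _ _).symm |>.symm.symm]
        exact mul_le_mul_of_nonneg_left (zpow_le_zpow_right₀ hx1 (by have := hM r; omega))
          (abs_nonneg _)
    refine (Finset.sum_le_sum fun r _ => h3 r).trans ?_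
    rw [← Finset.sum_mul, mul_div_assoc', div_le_div_iff₀ hx0 two_pos]
    nlinarith
  rw [hsplit]
  have h4 := abs_add_le (((∑ r, if e r = M then k r else 0 : ℤ) : ℝ) * x ^ M +
        ∑ r, if e r = M then 0 else (k r : ℝ) * x ^ e r)
      (-∑ r, if e r = M then 0 else (k r : ℝ) * x ^ e r)
  rw [add_neg_cancel_right, abs_neg, abs_mul, abs_of_pos hT] at h4
  nlinarith

/-- The three possible sizes of `x ^ n - 1`. -/
lemma zpow_cases (x : ℝ) (hx : 6 ≤ x) (n : ℤ) :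
    (n = 0 ∧ x ^ n - 1 = 0) ∨ 5 ≤ x ^ n - 1 ∨ (-1 ≤ x ^ n - 1 ∧ x ^ n - 1 ≤ -1 / 2) := by
  have hx1 : (1 : ℝ) ≤ x := by linarith
  rcases lt_trichotomy n 0 with h | h | h
  · right; right
    have h1 : x ^ n ≤ x ^ (-1 : ℤ) := zpow_le_zpow_right₀ hx1 (by omega)
    have h2 : 0 < x ^ n := zpow_pos (by linarith) n
    have h3 : x ^ (-1 : ℤ) ≤ 1 / 2 := by
      rw [zpow_neg_one, ← one_div]
      exact one_div_le_one_div_of_le (by norm_num) (by linarith)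
    constructor <;> linarith
  · left; simp [h]
  · right; left
    have h1 : x ^ (1 : ℤ) ≤ x ^ n := zpow_le_zpow_right₀ hx1 (by omega)
    rw [zpow_one] at h1
    linarith

lemma zpow_half (x : ℝ) (hx : 6 ≤ x) (n : ℤ) (hn : n ≠ 0) : 1 / 2 ≤ |x ^ n - 1| := by
  rcases zpow_cases x hx n with h | h | h
  · exact absurd h.1 hn
  · exact le_abs.2 (Or.inl (by linarith))
  · exact le_abs.2 (Or.inr (by linarith))

lemma zpow_pair (x : ℝ) (hx : 6 ≤ x) (m n : ℤ) (h : ¬(m = 0 ∧ n = 0)) :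
    1 / 2 ≤ |x ^ m - 1| + |x ^ n - 1| ∧
      |x ^ m - 1| + |x ^ n - 1| ≤ 3 * |(x ^ m - 1) + (x ^ n - 1)| := by
  have hm := zpow_cases x hx m
  have hn := zpow_cases x hx n
  generalize x ^ m - 1 = y at hm
  generalize x ^ n - 1 = z at hn
  have hc : ¬(m = 0 ∧ n = 0) := h
  rcases hm with ⟨m0, hm⟩ | hm | ⟨hm, hm'⟩ <;> rcases hn with ⟨n0, hn⟩ | hn | ⟨hn, hn'⟩
  · exact absurd ⟨m0, n0⟩ hc
  all_goals
    rcases abs_cases y with h1 | h1 <;> rcases abs_cases z with h2 | h2 <;>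
      rcases abs_cases (y + z) with h3 | h3 <;> constructor <;> linarith

end Pool.Agent.P.MP_0bb74b_gt
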