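import Pool.Agent.P.MP_0bb74b_gt.Base
import Pool.Agent.P.MP_0bb74b_gt.Tie

/-! The parameter sequence, the ping-pong wrapper and entrywise bounds. -/

namespace Pool.Agent.P.MP_0bb74b_gt

open Matrix Filter Topology Complex Pointwise

/-- The limit parameter. -/
noncomputable def A0 : ℂˣ := Units.mk0 (exp (-(Real.pi * I / 4))) (exp_ne_zero _)

lemma A0_norm : ‖(A0 : ℂ)‖ = 1 := by
  show ‖exp (-(Real.pi * I / 4))‖ = 1
  rw [show (-(Real.pi * I / 4) : ℂ) = ((-(Real.pi / 4) : ℝ) : ℂ) * I by push_cast; ring]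
  exact norm_exp_ofReal_mul_I _

lemma A0_inv_sq : ((A0 : ℂ)⁻¹) ^ 2 = I := by
  show (exp (-(Real.pi * I / 4)))⁻¹ ^ 2 = I
  rw [← exp_neg, neg_neg, ← exp_nat_mul, show ((2 : ℕ) : ℂ) * (Real.pi * I / 4) = Real.pi / 2 * I by
    push_cast; ring, exp_mul_I]
  simp

lemma A0_sq : (A0 : ℂ) ^ 2 = -I := by
  have h := A0_inv_sq
  rw [inv_pow] at h
  rw [← inv_inv ((A0 : ℂ) ^ 2), h, inv_I]

lemma loop_A0 : loop A0 = 0 := by rw [loop_eq, A0_sq, A0_inv_sq]; ring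

lemma gen_A0 (i : Fin 4) : (gen A0 i).val = (A0 : ℂ) • (1 + I • tl 0 i) := by
  rw [gen_val, loop_A0, smul_add, smul_smul, ← A0_inv_sq]
  congr 2
  have := A0.ne_zero
  field_simp

lemma gen_inv_A0 (i : Fin 4) : (gen A0 i)⁻¹.val = (A0 : ℂ)⁻¹ • (1 - I • tl 0 i) := by
  rw [gen_inv_val, loop_A0, sub_eq_add_neg, ← neg_smul, smul_add, smul_smul, ← A0_sq]
  congr 2
  have := A0.ne_zero
  field_simp

lemma exists_seq (x : ℝ) (hx : 1 < x) : ∃ A : ℕ → ℂˣ,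
    Tendsto (fun n => (A n : ℂ)) atTop (𝓝 A0) ∧
      ∀ N : ℕ, 1 ≤ N → mu (A N) ^ N = x ∧ loop (A N) ≠ 0 := by
  refine ⟨fun N => Units.mk0 (exp (-(Real.pi * I / 4) - (Real.log x : ℂ) / 4 / N)) (exp_ne_zero _),
    ?_, fun N hN => ?_⟩
  · show Tendsto (fun N : ℕ => exp (-(Real.pi * I / 4) - (Real.log x : ℂ) / 4 / N)) atTop
      (𝓝 (exp (-(Real.pi * I / 4))))
    refine (continuous_exp.tendsto _).comp ?_
    have := (tendsto_const_div_atTop_nhds_zero_nat ((Real.log x : ℂ) / 4)).const_sub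
      (-(Real.pi * I / 4))
    simpa using this
  · have hN' : (N : ℂ) ≠ 0 := by exact_mod_cast (by omega : N ≠ 0)
    set B : ℂˣ := Units.mk0 (exp (-(Real.pi * I / 4) - (Real.log x : ℂ) / 4 / N)) (exp_ne_zero _)
    have h1 : mu B ^ N = x := by
      have : mu B = exp ((Real.log x : ℂ) / N) := by
        show -(exp (-(Real.pi * I / 4) - (Real.log x : ℂ) / 4 / N))⁻¹ ^ 4 = _
        rw [← exp_neg, ← exp_nat_mul, show ((4 : ℕ) : ℂ) * -(-(Real.pi * I / 4) -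
          (Real.log x : ℂ) / 4 / N) = Real.pi * I + (Real.log x : ℂ) / N by push_cast; ring,
          exp_add, exp_pi_mul_I]
        ring
      rw [this, ← exp_nat_mul, mul_div_cancel₀ _ hN', ← ofReal_exp, Real.exp_log (by linarith)]
    refine ⟨h1, fun h => ?_⟩
    have h2 : mu B = 1 := by
      have := B.ne_zero
      have h3 : mu B - 1 = loop B * ((B : ℂ)⁻¹) ^ 2 := by rw [loop_eq, mu]; field_simp; ring
      rw [h, zero_mul] at h3
      exact sub_eq_zero.1 h3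
    rw [h2, one_pow] at h1
    have : (1 : ℝ) = x := by exact_mod_cast h1
    linarith

lemma faithful_of_pp {ι : Type} [Nontrivial ι] {H : ι → Type} [∀ i, Group (H i)] {G : Type}
    [Group G] (φ : ∀ i, H i →* B5) (ρ : B5 →* G) (hcard : ∃ i, Infinite (H i)) {α : Type}
    [MulAction G α] (X : ι → Set α) (hne : ∀ i, (X i).Nonempty)
    (hdisj : ∀ i j, i ≠ j → ∀ v, v ∈ X i → v ∈ X j → False)
    (hpp : ∀ i j, i ≠ j → ∀ h : H i, h ≠ 1 → ∀ v ∈ X j, ρ (φ i h) • v ∈ X i)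
    (S : Set B5) (hS : ∀ s ∈ S, ∃ i y, φ i y = s) :
    ∀ β ∈ Subgroup.closure S, ρ β = 1 → β = 1 := by
  have hinj := Monoid.CoprodI.lift_injective_of_ping_pong (fun i => ρ.comp (φ i))
    (by
      obtain ⟨i, hi⟩ := hcard
      exact Or.inr ⟨i, (Cardinal.natCast_lt_aleph0 (n := 3)).le.trans (Cardinal.aleph0_le_mk _)⟩) X hne
    (fun i j hij => Set.disjoint_left.2 fun v h1 h2 => hdisj i j hij v h1 h2)
    (fun i j hij h h1 => by
      rintro _ ⟨v, hv, rfl⟩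
      exact hpp i j hij h h1 v hv)
  have hle : Subgroup.closure S ≤ (Monoid.CoprodI.lift φ).range := by
    rw [Subgroup.closure_le]
    intro s hs
    obtain ⟨i, y, rfl⟩ := hS s hs
    exact ⟨Monoid.CoprodI.of y, Monoid.CoprodI.lift_of _ _⟩
  have hcomp : ρ.comp (Monoid.CoprodI.lift φ) = Monoid.CoprodI.lift fun i => ρ.comp (φ i) := by
    ext i y
    simp
  intro β hβ h1
  obtain ⟨w, rfl⟩ := hle hβ
  have h2 : Monoid.CoprodI.lift (fun i => ρ.comp (φ i)) w = 1 := by rw [← hcomp]; exact h1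
  rw [(injective_iff_map_eq_one _).1 hinj w h2, map_one]

/-- Entrywise bound. -/
def Bd (M : M5) (C : ℝ) : Prop := ∀ p q, ‖M p q‖ ≤ C

lemma Bd.nonneg {M : M5} {C : ℝ} (h : Bd M C) : 0 ≤ C := (norm_nonneg _).trans (h 0 0)

lemma Bd.mono {M : M5} {C D : ℝ} (h : Bd M C) (hCD : C ≤ D) : Bd M D :=
  fun p q => (h p q).trans hCD

lemma Bd.add {M N : M5} {C D : ℝ} (h : Bd M C) (h' : Bd N D) : Bd (M + N) (C + D) :=
  fun p q => (norm_add_le _ _).trans (add_le_add (h p q) (h' p q))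

lemma Bd.smul {M : M5} {C : ℝ} (h : Bd M C) (c : ℂ) : Bd (c • M) (‖c‖ * C) := fun p q => by
  rw [Matrix.smul_apply, smul_eq_mul, norm_mul]
  exact mul_le_mul_of_nonneg_left (h p q) (norm_nonneg _)

lemma Bd.transpose {M : M5} {C : ℝ} (h : Bd M C) : Bd Mᵀ C := fun p q => h q p

lemma Bd.mul {M N : M5} {C D : ℝ} (h : Bd M C) (h' : Bd N D) : Bd (M * N) (5 * (C * D)) := by
  intro p q
  rw [Matrix.mul_apply]
  refine (norm_sum_le _ _).trans ?_
  have : ∀ k, ‖M p k * N k q‖ ≤ C * D := fun k => by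
    rw [norm_mul]; exact mul_le_mul (h p k) (h' k q) (norm_nonneg _) h.nonneg
  refine (Finset.sum_le_sum fun k _ => this k).trans ?_
  simp

lemma Bd.conj {G W : M5} {C B : ℝ} (h : Bd G C) (h' : Bd W B) :
    Bd (G * W * Gᵀ) (25 * C ^ 2 * B) :=
  ((h.mul h').mul h.transpose).mono (le_of_eq (by ring))

lemma Bd.sum {ι : Type} (s : Finset ι) {M : ι → M5} {C : ℝ} (h : ∀ r, Bd (M r) C) :
    Bd (∑ r ∈ s, M r) (s.card * C) := by
  intro p q
  rw [Matrix.sum_apply]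
  refine (norm_sum_le _ _).trans ((Finset.sum_le_sum fun r _ => h r p q).trans ?_)
  simp

lemma Bd.mulVec {G : M5} {C : ℝ} (h : Bd G C) (v : Fin 5 → ℂ) : ‖G *ᵥ v‖ ≤ 5 * C * ‖v‖ := by
  have hC := h.nonneg
  refine (pi_norm_le_iff_of_nonneg (by positivity)).2 fun p => ?_
  rw [Matrix.mulVec, dotProduct]
  refine (norm_sum_le _ _).trans ?_
  have : ∀ k, ‖G p k * v k‖ ≤ C * ‖v‖ := fun k => by
    rw [norm_mul]; exact mul_le_mul (h p k) (norm_le_pi_norm v k) (norm_nonneg _) hC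
  refine (Finset.sum_le_sum fun k _ => this k).trans ?_
  simp [mul_assoc]

lemma exists_bd {ι κ : Type} [Finite κ] {l : Filter ι} {f : κ → ι → M5} {M : κ → M5}
    (h : ∀ k, Tendsto (f k) l (𝓝 (M k))) : ∃ C : ℝ, 1 ≤ C ∧ ∀ᶠ n in l, ∀ k, Bd (f k n) C := by
  obtain ⟨C, hC⟩ := (Set.finite_range fun t : κ × Fin 5 × Fin 5 => ‖M t.1 t.2.1 t.2.2‖).bddAbove
  refine ⟨max C 0 + 1, by simp, ?_⟩
  simp only [Bd, eventually_all]
  intro k p q
  have h1 : Tendsto (fun n => ‖f k n p q‖) l (𝓝 ‖M k p q‖) :=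
    (tendsto_pi_nhds.1 (tendsto_pi_nhds.1 (h k) p) q).norm
  have h2 : ‖M k p q‖ < max C 0 + 1 :=
    lt_of_le_of_lt ((hC ⟨(k, p, q), rfl⟩).trans (le_max_left _ _)) (lt_add_one _)
  exact (h1.eventually (gt_mem_nhds h2)).mono fun n hn => hn.le

end Pool.Agent.P.MP_0bb74b_gt
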