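import Pool.Agent.P.MP_0bb74b_gt.PartX

/-! Explicit formulas on the exterior square. -/

namespace Pool.Agent.P.MP_0bb74b_gt

open Matrix Filter Topology Complex

/-- Elementary bivector. -/
def wedge (p q : Fin 5) : M5 := Matrix.single p q 1 - Matrix.single q p 1

/-- The functional of the exterior square of `e_1`. -/
def psi (τ : ℂ) (W : M5) : ℂ :=
  τ * W 0 1 + τ ^ 2 * W 0 2 + W 3 1 + τ * W 3 2 + W 4 1 + τ * W 4 2

/-- Auxiliary functional. -/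
def pA (τ : ℂ) (W : M5) (k : Fin 5) : ℂ :=
  τ ^ 2 * W 0 k + τ * W 0 1 + τ * W 2 k + τ * W 3 k + τ * W 4 k + W 2 1 + W 3 1 + W 4 1 + W 1 k

/-- Auxiliary functional. -/
def pB (τ : ℂ) (W : M5) (k l : Fin 5) : ℂ := τ * W k l + W k 1 + W 1 l

/-- The ten scaled eigenfunctionals. -/
def pp (τ : ℂ) (W : M5) : Fin 10 → ℂ :=
  ![pA τ W 2, pA τ W 4, pA τ W 3, τ * W 0 1 + W 2 1 + W 3 1 + W 4 1, pB τ W 2 4, pB τ W 2 3,
    pB τ W 4 3, W 2 1, W 4 1, W 3 1]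

/-- Auxiliary bivector. -/
def uB (τ : ℂ) (k l : Fin 5) : M5 := τ • wedge k l - wedge k 0 - wedge 0 l

/-- Auxiliary bivector. -/
def uC (τ : ℂ) (k : Fin 5) : M5 :=
  τ ^ 2 • wedge k 1 - τ • (wedge k 2 + wedge k 3 + wedge k 4) + (2 : ℂ) • wedge k 0 -
    τ • wedge 0 1 + (wedge 0 2 + wedge 0 3 + wedge 0 4)

/-- The ten scaled eigenvectors. -/
def UU (τ : ℂ) : Fin 10 → M5 :=
  ![wedge 0 2, wedge 0 4, wedge 0 3, τ • wedge 0 1 - (wedge 0 2 + wedge 0 3 + wedge 0 4),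
    uB τ 2 4, uB τ 2 3, uB τ 4 3, uC τ 2, uC τ 4, uC τ 3]

/-- The ten eigenvalues. -/
def lam (x y z : ℂ) : Fin 10 → ℂ :=
  ![x * y * z * x, x * y * z * y, x * y * z * z, x * y * z, x * y, x * z, y * z, x, y, z]

/-- The scaled matrix of an element of the abelian factor. -/
def KK (τ x y z : ℂ) : M5 :=
  !![τ ^ 2 * (x * y * z), x * y * z - x - y - z + 2, τ * (x * y * z - x), τ * (x * y * z - z),
      τ * (x * y * z - y);
    0, τ ^ 2, 0, 0, 0; 0, τ * (x - 1), τ ^ 2 * x, 0, 0; 0, τ * (z - 1), 0, τ ^ 2 * z, 0;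
    0, τ * (y - 1), 0, 0, τ ^ 2 * y]

lemma K_eq (τ x y z : ℂ) : (τ • (1 : M5) + (x - 1) • tl τ 0) * (τ • 1 + (y - 1) • tl τ 2) *
    (τ • 1 + (z - 1) • tl4 τ) = τ • KK τ x y z := by
  rw [tl0, tl2]
  ext p q
  fin_cases p <;> fin_cases q <;>
    simp [tl4, KK, Matrix.mul_apply, Fin.sum_univ_five, Matrix.one_apply] <;> ring

lemma anti_form {W : M5} (h : Wᵀ = -W) : ∃ w1 w2 w3 w4 w5 w6 w7 w8 w9 w10 : ℂ,
    W = !![0, w1, w2, w3, w4; -w1, 0, w5, w6, w7; -w2, -w5, 0, w8, w9; -w3, -w6, -w8, 0, w10;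
      -w4, -w7, -w9, -w10, 0] := by
  have h1 : ∀ p q, W q p = -W p q := fun p q => congrFun (congrFun h p) q
  have h2 : ∀ p, W p p = 0 := fun p => by linear_combination (h1 p p) / 2
  refine ⟨W 0 1, W 0 2, W 0 3, W 0 4, W 1 2, W 1 3, W 1 4, W 2 3, W 2 4, W 3 4, ?_⟩
  ext p q
  fin_cases p <;> fin_cases q <;> first | exact h2 _ | rfl | exact h1 _ _

lemma UU_eq (τ : ℂ) : UU τ =
    ![!![0,0,1,0,0; 0,0,0,0,0; -1,0,0,0,0; 0,0,0,0,0; 0,0,0,0,0],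
      !![0,0,0,0,1; 0,0,0,0,0; 0,0,0,0,0; 0,0,0,0,0; -1,0,0,0,0],
      !![0,0,0,1,0; 0,0,0,0,0; 0,0,0,0,0; -1,0,0,0,0; 0,0,0,0,0],
      !![0,τ,-1,-1,-1; -τ,0,0,0,0; 1,0,0,0,0; 1,0,0,0,0; 1,0,0,0,0],
      !![0,0,1,0,-1; 0,0,0,0,0; -1,0,0,0,τ; 0,0,0,0,0; 1,0,-τ,0,0],
      !![0,0,1,-1,0; 0,0,0,0,0; -1,0,0,τ,0; 1,0,-τ,0,0; 0,0,0,0,0],
      !![0,0,0,-1,1; 0,0,0,0,0; 0,0,0,0,0; 1,0,0,0,-τ; -1,0,0,τ,0],
      !![0,-τ,-1,1,1; τ,0,-τ^2,0,0; 1,τ^2,0,-τ,-τ; -1,0,τ,0,0; -1,0,τ,0,0],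
      !![0,-τ,1,1,-1; τ,0,0,0,-τ^2; -1,0,0,0,τ; -1,0,0,0,τ; 1,τ^2,-τ,-τ,0],
      !![0,-τ,1,-1,1; τ,0,0,-τ^2,0; -1,0,0,τ,0; 1,τ^2,-τ,0,-τ; -1,0,0,τ,0]] := by
  ext r p q
  fin_cases r <;> fin_cases p <;> fin_cases q <;>
    simp [UU, uB, uC, wedge] <;> norm_num

lemma K_ident (τ x y z : ℂ) {W : M5} (h : Wᵀ = -W) : KK τ x y z * W * (KK τ x y z)ᵀ =
    τ ^ 2 • ∑ r, (lam x y z r * pp τ W r) • UU τ r := by
  obtain ⟨w1, w2, w3, w4, w5, w6, w7, w8, w9, w10, rfl⟩ := anti_form h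
  rw [sum_ten, UU_eq]
  ext p q
  fin_cases p <;> fin_cases q <;>
    simp [KK, lam, pp, pA, pB, Matrix.mul_apply, Fin.sum_univ_five] <;> ring

lemma T_ident (τ y : ℂ) {W : M5} (h : Wᵀ = -W) :
    (τ • (1 : M5) + y • tl τ 0) * W * (τ • (1 : M5) + y • tl τ 0)ᵀ =
      (y ^ 2 * psi τ W) • wedge 0 2 + (τ ^ 2 • W + (τ * y) • (tl τ 0 * W + W * (tl τ 0)ᵀ)) := by
  have h1 : tl τ 0 * W * (tl τ 0)ᵀ = psi τ W • wedge 0 2 := by
    obtain ⟨w1, w2, w3, w4, w5, w6, w7, w8, w9, w10, rfl⟩ := anti_form h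
    rw [tl0]
    ext p q
    fin_cases p <;> fin_cases q <;>
      simp [psi, wedge, Matrix.mul_apply, Fin.sum_univ_five] <;> ring
  simp only [transpose_add, transpose_smul, transpose_one, mul_add, add_mul, smul_mul_assoc,
    mul_smul_comm, mul_one, one_mul, h1]
  module

lemma pp_add (τ c : ℂ) (W E : M5) (r : Fin 10) :
    pp τ (c • W + E) r = c * pp τ W r + pp τ E r := by
  fin_cases r <;> simp [pp, pA, pB] <;> ring

lemma psi_add (τ : ℂ) (W E : M5) : psi τ (W + E) = psi τ W + psi τ E := by simp [psi]; ring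

lemma psi_smul (τ c : ℂ) (W : M5) : psi τ (c • W) = c * psi τ W := by simp [psi]; ring

lemma psi_sum (τ : ℂ) (f : Fin 10 → M5) : psi τ (∑ r, f r) = ∑ r, psi τ (f r) := by
  simp only [sum_ten, psi_add]

lemma psi_wedge (τ : ℂ) : psi τ (wedge 0 2) = τ ^ 2 := by simp [psi, wedge]

section
variable {τ : ℂ} (hτ : ‖τ‖ ≤ 1) {W : M5} {B : ℝ} (h : Bd W B)
include hτ h

lemma bd_t (p q : Fin 5) : ‖τ * W p q‖ ≤ B := by
  rw [norm_mul]; nlinarith [h p q, norm_nonneg (W p q), norm_nonneg τ]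

lemma bd_t2 (p q : Fin 5) : ‖τ ^ 2 * W p q‖ ≤ B := by
  rw [pow_two, mul_assoc, norm_mul]
  nlinarith [bd_t hτ h p q, norm_nonneg (τ * W p q), norm_nonneg τ]

lemma psi_bd : ‖psi τ W‖ ≤ 6 * B := by
  have : ‖psi τ W‖ ≤ B + B + B + B + B + B := by
    unfold psi
    repeat' apply norm_add_le_of_le
    all_goals first | exact bd_t2 hτ h _ _ | exact bd_t hτ h _ _ | exact h _ _
  linarith

lemma pp_bd (r : Fin 10) : ‖pp τ W r‖ ≤ 9 * B := by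
  have h0 := h.nonneg
  have hA : ∀ k, ‖pA τ W k‖ ≤ 9 * B := fun k => by
    have : ‖pA τ W k‖ ≤ B + B + B + B + B + B + B + B + B := by
      unfold pA
      repeat' apply norm_add_le_of_le
      all_goals first | exact bd_t2 hτ h _ _ | exact bd_t hτ h _ _ | exact h _ _
    linarith
  have hB : ∀ k l, ‖pB τ W k l‖ ≤ 9 * B := fun k l => by
    have : ‖pB τ W k l‖ ≤ B + B + B := by
      unfold pB
      repeat' apply norm_add_le_of_le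
      all_goals first | exact bd_t hτ h _ _ | exact h _ _
    linarith
  have hC : ‖τ * W 0 1 + W 2 1 + W 3 1 + W 4 1‖ ≤ 9 * B := by
    have : ‖τ * W 0 1 + W 2 1 + W 3 1 + W 4 1‖ ≤ B + B + B + B := by
      repeat' apply norm_add_le_of_le
      all_goals first | exact bd_t hτ h _ _ | exact h _ _
    linarith
  have hD : ∀ k l, ‖W k l‖ ≤ 9 * B := fun k l => (h k l).trans (by linarith)
  fin_cases r
  exacts [hA _, hA _, hA _, hC, hB _ _, hB _ _, hB _ _, hD _ _, hD _ _, hD _ _]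

end

lemma bd_tl0 {τ : ℂ} (hτ : ‖τ‖ ≤ 1) : Bd (tl τ 0) 1 := by
  intro p q
  rw [tl0]
  fin_cases p <;> fin_cases q <;> simp [hτ]

lemma bd_wedge : Bd (wedge 0 2) 1 := by
  intro p q
  fin_cases p <;> fin_cases q <;> simp [wedge]

lemma wedge_anti : (wedge 0 2)ᵀ = -wedge 0 2 := by simp [wedge]

lemma continuous_UU (r : Fin 10) : Continuous fun τ => UU τ r := by
  fin_cases r <;> simp only [UU, uB, uC] <;> simp <;> fun_prop

lemma continuous_pp (r : Fin 10) : Continuous fun t : ℂ × M5 => pp t.1 t.2 r := by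
  fin_cases r <;> simp [pp, pA, pB] <;> fun_prop

lemma continuous_psi : Continuous fun t : ℂ × M5 => psi t.1 t.2 := by
  unfold psi; fun_prop

end Pool.Agent.P.MP_0bb74b_gt
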