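import Pool.Agent.P.MP_0bb74b_gt.PartD1

/-! The exterior square at the limit parameter is the symmetric square of the homology. -/

namespace Pool.Agent.P.MP_0bb74b_gt

open Matrix Filter Topology Complex

/-- The bivector of a homology class. -/
def qq (x y z w : ℂ) : M5 :=
  !![0, I * (-x * y + y * z - z * w), x ^ 2 - x * z, x * z, z ^ 2 - x * z;
    -(I * (-x * y + y * z - z * w)), 0, w ^ 2 - y * w, y ^ 2 - y * w, y * w;
    -(x ^ 2 - x * z), -(w ^ 2 - y * w), 0, I * (x * y - x * w), I * (x * w - z * w);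
    -(x * z), -(y ^ 2 - y * w), -(I * (x * y - x * w)), 0, I * (y * z);
    -(z ^ 2 - x * z), -(y * w), -(I * (x * w - z * w)), -(I * (y * z)), 0]

/-- The dual bivector of a homology class. -/
def qd (x y z w : ℂ) : M5 :=
  !![0, I * (x * y - y * z + z * w), -y ^ 2, -w ^ 2, -(y - w) ^ 2;
    -(I * (x * y - y * z + z * w)), 0, -z ^ 2, -(x - z) ^ 2, -x ^ 2;
    y ^ 2, z ^ 2, 0, I * (-x * y + y * z + z * w), I * (-x * y - y * z + z * w);
    w ^ 2, (x - z) ^ 2, -(I * (-x * y + y * z + z * w)), 0, I * (x * y - 2 * x * w - y * z + z * w);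
    (y - w) ^ 2, x ^ 2, -(I * (-x * y - y * z + z * w)), -(I * (x * y - 2 * x * w - y * z + z * w)),
      0]

/-- The transvection in coordinates. -/
def tv (i : Fin 4) (ε x y z w : ℂ) : Fin 4 → ℂ :=
  ![![x + ε * y, y, z, w], ![x, y + ε * (z - x), z, w], ![x, y, z + ε * (w - y), w],
    ![x, y, z, w - ε * z]] i

lemma qq_gen (i : Fin 4) (ε x y z w : ℂ) :
    (1 + (ε * I) • tl 0 i) * qq x y z w * (1 + (ε * I) • tl 0 i)ᵀ =
      qq (tv i ε x y z w 0) (tv i ε x y z w 1) (tv i ε x y z w 2) (tv i ε x y z w 3) := by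
  have h2 : I ^ 2 = -1 := I_sq
  fin_cases i <;> simp only [Fin.zero_eta, Fin.mk_one, Fin.reduceFinMk, tl0, tl1, tl2, tl3] <;>
    ext p q <;> fin_cases p <;> fin_cases q <;>
    simp [qq, tv, Matrix.mul_apply, Fin.sum_univ_five, Matrix.one_apply] <;>
    ring_nf <;> simp only [h2] <;> ring

lemma qd_gen (i : Fin 4) (ε x y z w : ℂ) :
    (1 - (ε * I) • tl 0 i)ᵀ * qd x y z w * (1 - (ε * I) • tl 0 i) =
      qd (tv i ε x y z w 0) (tv i ε x y z w 1) (tv i ε x y z w 2) (tv i ε x y z w 3) := by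
  have h2 : I ^ 2 = -1 := I_sq
  fin_cases i <;> simp only [Fin.zero_eta, Fin.mk_one, Fin.reduceFinMk, tl0, tl1, tl2, tl3] <;>
    ext p q <;> fin_cases p <;> fin_cases q <;>
    simp [qd, tv, Matrix.mul_apply, Fin.sum_univ_five, Matrix.one_apply] <;>
    ring_nf <;> simp only [h2] <;> ring

lemma tv_pos (i : Fin 4) (b : Fin 4 → ℤ) (k : Fin 4) :
    (((transv i).val *ᵥ b) k : ℂ) = tv i 1 (b 0) (b 1) (b 2) (b 3) k := by
  rw [transv_val]
  fin_cases i <;> fin_cases k <;>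
    simp [tv, mulVec, dotProduct, Fin.sum_univ_four, a, form, vecMulVec, Matrix.one_apply] <;> ring

lemma tv_neg (i : Fin 4) (b : Fin 4 → ℤ) (k : Fin 4) :
    (((transv i)⁻¹.val *ᵥ b) k : ℂ) = tv i (-1) (b 0) (b 1) (b 2) (b 3) k := by
  rw [transv_inv_val]
  fin_cases i <;> fin_cases k <;>
    simp [tv, mulVec, dotProduct, Fin.sum_univ_four, a, form, vecMulVec, Matrix.one_apply] <;> ring

/-- Integer version. -/
def qz (b : Fin 4 → ℤ) : M5 := qq (b 0) (b 1) (b 2) (b 3)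

/-- Integer version. -/
def dz (b : Fin 4 → ℤ) : M5 := qd (b 0) (b 1) (b 2) (b 3)

lemma q_equiv (β : B5) : ∃ s t : ℂ, s * t = 1 ∧ ∀ b : Fin 4 → ℤ,
    (rho A0 β).val * qz b * (rho A0 β).valᵀ = s • qz ((sp β).val *ᵥ b) ∧
    (rho A0 β⁻¹).valᵀ * dz b * (rho A0 β⁻¹).val = t • dz ((sp β).val *ᵥ b) := by
  have hβ : β ∈ Subgroup.closure (Set.range σ) := by rw [closure_σ]; trivial
  have h0 := A0.ne_zero
  induction hβ using Subgroup.closure_induction'' with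
  | one => exact ⟨1, 1, by simp, fun b => by simp⟩
  | mem x hx =>
    obtain ⟨i, rfl⟩ := hx
    refine ⟨(A0 : ℂ) * A0, (A0 : ℂ)⁻¹ * (A0 : ℂ)⁻¹, by field_simp, fun b => ?_⟩
    have h1 := qq_gen i 1 (b 0) (b 1) (b 2) (b 3)
    have h2 := qd_gen i 1 (b 0) (b 1) (b 2) (b 3)
    rw [one_mul] at h1 h2
    rw [map_inv, rho_σ, gen_A0, gen_inv_A0, sp_σ]
    simp only [qz, dz, tv_pos, transpose_smul, smul_mul_assoc, mul_smul_comm, smul_smul, h1, h2,
      and_self]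
  | inv_mem x hx =>
    obtain ⟨i, rfl⟩ := hx
    refine ⟨(A0 : ℂ)⁻¹ * (A0 : ℂ)⁻¹, (A0 : ℂ) * A0, by field_simp, fun b => ?_⟩
    have h1 := qq_gen i (-1) (b 0) (b 1) (b 2) (b 3)
    have h2 := qd_gen i (-1) (b 0) (b 1) (b 2) (b 3)
    rw [neg_one_mul, neg_smul] at h1 h2
    rw [← sub_eq_add_neg] at h1
    rw [sub_neg_eq_add] at h2
    rw [inv_inv, map_inv, map_inv, rho_σ, gen_A0, gen_inv_A0, sp_σ]
    simp only [qz, dz, tv_neg, transpose_smul, smul_mul_assoc, mul_smul_comm, smul_smul, h1, h2,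
      and_self]
  | mul x y _ _ hx hy =>
    obtain ⟨s, t, hs, hx⟩ := hx
    obtain ⟨s', t', hs', hy⟩ := hy
    refine ⟨s' * s, t' * t, by linear_combination s * t * hs' + hs, fun b => ?_⟩
    obtain ⟨h1, h2⟩ := hy b
    obtain ⟨h3, h4⟩ := hx ((sp y).val *ᵥ b)
    simp only [_root_.mul_inv_rev, map_mul, Units.val_mul, ← mulVec_mulVec, transpose_mul]
    constructor
    · rw [← smul_smul, ← h3, ← smul_mul_assoc, ← mul_smul_comm, ← h1]
      simp only [mul_assoc]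
    · rw [← smul_smul, ← h4, ← smul_mul_assoc, ← mul_smul_comm, ← h2]
      simp only [mul_assoc]

/-- Values of the functional on the ten eigenvectors at the limit parameter. -/
def uu (Q : M5) : Fin 10 → ℂ :=
  ![Q 0 2, Q 0 4, Q 0 3, -(Q 0 2 + Q 0 3 + Q 0 4), Q 0 2 - Q 0 4, Q 0 2 - Q 0 3, Q 0 4 - Q 0 3,
    Q 0 3 + Q 0 4 - Q 0 2, Q 0 2 + Q 0 3 - Q 0 4, Q 0 2 + Q 0 4 - Q 0 3]

lemma psi_UU (G : M5) (r : Fin 10) : psi 0 (G * UU 0 r * Gᵀ) = uu (Gᵀ * dz (a 0) * G) r := by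
  rw [UU_eq]
  fin_cases r <;> simp [psi, uu, dz, qd, a, Matrix.mul_apply, Fin.sum_univ_five] <;> ring

lemma limit_cf (h : B5) (r : Fin 10) :
    pp 0 ((rho A0 h).val * wedge 0 2 * (rho A0 h).valᵀ) r *
      psi 0 ((rho A0 h⁻¹).val * UU 0 r * (rho A0 h⁻¹).valᵀ) = cf (cls h 1) (cls h 3) r := by
  obtain ⟨s, t, hs, hq⟩ := q_equiv h
  obtain ⟨h1, h2⟩ := hq (a 0)
  have h3 : wedge 0 2 = qz (a 0) := by
    ext p q
    fin_cases p <;> fin_cases q <;> simp [wedge, qz, qq, a]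
  rw [psi_UU, h3, h1, h2]
  change pp 0 (s • qz (cls h)) r * uu (t • dz (cls h)) r = _
  generalize cls h = b
  have h4 : pp 0 (s • qz b) r * uu (t • dz b) r = s * t * (pp 0 (qz b) r * uu (dz b) r) := by
    fin_cases r <;> simp [pp, pA, pB, uu] <;> ring
  rw [h4, hs, one_mul]
  fin_cases r <;> simp [pp, pA, pB, uu, qz, dz, qq, qd, cf] <;> ring

end Pool.Agent.P.MP_0bb74b_gt
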