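import Pool.Agent.P.MP_0bb74b_gt.PartD2

/-! Ping-pong on the exterior square. -/

namespace Pool.Agent.P.MP_0bb74b_gt

open Matrix Filter Topology Complex

/-- The action on bivectors. -/
@[reducible] noncomputable def actW : MulAction (GL (Fin 5) ℂ) M5 where
  smul g W := g.val * W * g.valᵀ
  one_smul W := by show (1 : M5) * W * (1 : M5)ᵀ = W; simp
  mul_smul g h W := by
    show (g.val * h.val) * W * (g.val * h.val)ᵀ = g.val * (h.val * W * h.valᵀ) * g.valᵀ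
    simp only [transpose_mul, mul_assoc]

lemma anti_conj (G : M5) {W : M5} (h : Wᵀ = -W) : (G * W * Gᵀ)ᵀ = -(G * W * Gᵀ) := by
  simp [transpose_mul, h, mul_assoc]

lemma lam_eq (x : ℝ) (hx : x ≠ 0) (a b c : ℤ) (r : Fin 10) :
    lam ((x : ℂ) ^ a) ((x : ℂ) ^ b) ((x : ℂ) ^ c) r = ((x ^ ex a b c r : ℝ) : ℂ) := by
  have hx' : (x : ℂ) ≠ 0 := by exact_mod_cast hx
  push_cast
  fin_cases r <;> simp only [lam, ex] <;> simp [← zpow_add₀ hx'] <;> congr 1 <;> ring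

lemma T_step {τ y : ℂ} {δ κ : ℝ} (hδ : 0 < δ) (hτ1 : ‖τ‖ ≤ 1) (hτ : 24 * ‖τ‖ ≤ δ * κ)
    (hy : 1 / 2 ≤ ‖y‖) {W : M5} {B : ℝ} (hB : Bd W B) (hκ : κ * B < ‖psi τ W‖) :
    Bd (τ ^ 2 • W + (τ * y) • (tl τ 0 * W + W * (tl τ 0)ᵀ)) (δ * ‖y ^ 2 * psi τ W‖) := by
  refine ((hB.smul _).add ((((bd_tl0 hτ1).mul hB).add
    (hB.mul (bd_tl0 hτ1).transpose)).smul _)).mono ?_
  have h0 := hB.nonneg
  have h1 := norm_nonneg τ
  simp only [norm_mul, norm_pow]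
  have h2 : ‖τ‖ ^ 2 ≤ 4 * ‖τ‖ * ‖y‖ ^ 2 := by nlinarith [mul_nonneg h1 (sub_nonneg.2 hy)]
  have h3 : ‖τ‖ * ‖y‖ ≤ 2 * ‖τ‖ * ‖y‖ ^ 2 := by
    nlinarith [mul_nonneg (mul_nonneg h1 (norm_nonneg y)) (sub_nonneg.2 hy)]
  have h4 := mul_le_mul_of_nonneg_right h2 h0
  have h5 := mul_le_mul_of_nonneg_right h3 h0
  have h6 := mul_le_mul_of_nonneg_right hτ (mul_nonneg (sq_nonneg ‖y‖) h0)
  have h7 := mul_le_mul_of_nonneg_left hκ.le (mul_nonneg hδ.le (sq_nonneg ‖y‖))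
  nlinarith

lemma K_step {τ : ℂ} (hτ1 : ‖τ‖ ≤ 1) {C : ℝ} (hC : 1 ≤ C) {H : M5} (hH : Bd H C) {V : Fin 10 → M5}
    (hV : ∀ r, Bd (V r) C) {k : Fin 10 → ℝ}
    (hk : ∀ r, ‖pp τ (H * wedge 0 2 * Hᵀ) r * psi τ (V r) - k r‖ ≤ 1 / 80) {l : Fin 10 → ℝ} {T : ℝ}
    (hl0 : ∀ r, 0 < l r) (hl : ∀ r, l r ≤ T) (hT : T / 2 ≤ |∑ r, k r * l r|) {W : M5} {c : ℂ}
    (hc : c ≠ 0) (hW : Bd (W - c • wedge 0 2) (1 / (480000 * C ^ 3) * ‖c‖)) (s : ℂ) (hs : s ≠ 0) :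
    ∃ B, Bd (s • ∑ r, ((l r : ℂ) * pp τ (H * W * Hᵀ) r) • V r) B ∧
      1 / (20000 * C ^ 3) * B < ‖psi τ (s • ∑ r, ((l r : ℂ) * pp τ (H * W * Hᵀ) r) • V r)‖ := by
  have hc0 := norm_pos_iff.2 hc
  have hs0 := norm_pos_iff.2 hs
  have hT0 : 0 < T := (hl0 0).trans_le (hl 0)
  have hC0 : 0 < C := by linarith
  have hC3 : 1 ≤ C ^ 3 := one_le_pow₀ hC
  set E := W - c • wedge 0 2 with hE
  have hWE : W = c • wedge 0 2 + E := by rw [hE]; abel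
  have hδ : 1 / (480000 * C ^ 3) ≤ 1 := by rw [div_le_one (by positivity)]; linarith
  have hW2 : Bd W (2 * ‖c‖) := by
    rw [hWE]
    exact ((bd_wedge.smul c).add hW).mono (by nlinarith)
  have hn : ∀ r, ‖(l r : ℂ)‖ ≤ T := fun r => by
    rw [norm_real, Real.norm_eq_abs, abs_of_pos (hl0 r)]; exact hl r
  have hb : ∀ r, Bd (((l r : ℂ) * pp τ (H * W * Hᵀ) r) • V r) (T * (450 * C ^ 3 * ‖c‖)) := by
    intro r
    refine ((hV r).smul _).mono ?_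
    rw [norm_mul]
    have := mul_le_mul (hn r) (pp_bd hτ1 (hH.conj hW2) r) (norm_nonneg _) hT0.le
    exact (mul_le_mul_of_nonneg_right this hC0.le).trans (le_of_eq (by ring))
  refine ⟨_, (Bd.sum Finset.univ hb).smul s, ?_⟩
  rw [psi_smul, psi_sum, norm_mul]
  have hd : ∀ r, ‖psi τ (((l r : ℂ) * pp τ (H * W * Hᵀ) r) • V r) - c * (k r * l r : ℝ)‖ ≤
      T * (‖c‖ / 40) := by
    intro r
    have e1 : H * W * Hᵀ = c • (H * wedge 0 2 * Hᵀ) + H * E * Hᵀ := by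
      rw [hWE]; simp only [mul_add, add_mul, smul_mul_assoc, mul_smul_comm]
    have e2 : psi τ (((l r : ℂ) * pp τ (H * W * Hᵀ) r) • V r) - c * (k r * l r : ℝ) =
        l r * (c * (pp τ (H * wedge 0 2 * Hᵀ) r * psi τ (V r) - k r) +
          pp τ (H * E * Hᵀ) r * psi τ (V r)) := by
      rw [psi_smul, e1, pp_add]; push_cast; ring
    rw [e2, norm_mul]
    refine mul_le_mul (hn r) ((norm_add_le _ _).trans ?_) (norm_nonneg _) hT0.le
    rw [norm_mul, norm_mul]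
    have e3 := mul_le_mul (pp_bd hτ1 (hH.conj hW) r) (psi_bd hτ1 (hV r)) (norm_nonneg _)
      (by positivity)
    have e4 : 9 * (25 * C ^ 2 * (1 / (480000 * C ^ 3) * ‖c‖)) * (6 * C) = 9 * ‖c‖ / 3200 := by
      field_simp; ring
    have e5 := mul_le_mul_of_nonneg_left (hk r) hc0.le
    linarith
  have h1 : ‖∑ r, psi τ (((l r : ℂ) * pp τ (H * W * Hᵀ) r) • V r) -
      c * ((∑ r, k r * l r : ℝ) : ℂ)‖ ≤ 10 * (T * (‖c‖ / 40)) := by
    rw [ofReal_sum, Finset.mul_sum, ← Finset.sum_sub_distrib]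
    refine (norm_sum_le _ _).trans ((Finset.sum_le_sum fun r _ => hd r).trans ?_)
    simp
  generalize ∑ r, psi τ (((l r : ℂ) * pp τ (H * W * Hᵀ) r) • V r) = Z at h1 ⊢
  have h2 := norm_sub_le Z (Z - c * ((∑ r, k r * l r : ℝ) : ℂ))
  rw [sub_sub_cancel, norm_mul, norm_real, Real.norm_eq_abs] at h2
  have h3 := mul_le_mul_of_nonneg_left hT hc0.le
  have h4 : T * ‖c‖ / 4 ≤ ‖Z‖ := by linarith
  have h5 : 1 / (20000 * C ^ 3) * (‖s‖ * (((Finset.univ : Finset (Fin 10)).card : ℝ) *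
      (T * (450 * C ^ 3 * ‖c‖)))) = ‖s‖ * (9 / 40 * (T * ‖c‖)) := by
    rw [Finset.card_univ, Fintype.card_fin]; field_simp; ring
  rw [h5]
  exact mul_lt_mul_of_pos_left (by nlinarith [mul_pos hT0 hc0]) hs0

/-- The homomorphism defined by three commuting elements. -/
def hom3 (g g' g'' : B5) (h1 : Commute g g') (h2 : Commute g g'') (h3 : Commute g' g'') :
    Multiplicative (ℤ × ℤ × ℤ) →* B5 :=
  MonoidHom.mk' (fun p => g ^ p.toAdd.1 * g' ^ p.toAdd.2.1 * g'' ^ p.toAdd.2.2) fun p q => by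
    simp only [toAdd_mul, Prod.fst_add, Prod.snd_add, _root_.zpow_add]
    rw [(h1.zpow_zpow _ _).mul_mul_mul_comm]
    exact (((h2.zpow_zpow _ _).mul_left (h3.zpow_zpow _ _)).mul_mul_mul_comm _ _)

lemma hom3_apply {g g' g'' : B5} (h1 : Commute g g') (h2 : Commute g g'') (h3 : Commute g' g'')
    (l m n : ℤ) : hom3 g g' g'' h1 h2 h3 (Multiplicative.ofAdd (l, m, n)) =
      g ^ l * g' ^ m * g'' ^ n := rfl

/-- The two free factors. -/
def Fac : Bool → Type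
  | true => Multiplicative (ℤ × ℤ × ℤ)
  | false => Multiplicative ℤ

instance : ∀ i, Group (Fac i)
  | true => inferInstanceAs (Group (Multiplicative (ℤ × ℤ × ℤ)))
  | false => inferInstanceAs (Group (Multiplicative ℤ))

lemma D_fixed (h : B5) (A : ℂˣ) (N : ℕ) (x : ℝ) (hx : 6 ≤ x) (hμ : mu A ^ N = x) (hτ : loop A ≠ 0)
    (C : ℝ) (hC : 1 ≤ C) (hH : Bd (rho A h).val C)
    (hV : ∀ r, Bd ((rho A h⁻¹).val * UU (loop A) r * (rho A h⁻¹).valᵀ) C) (k : Fin 10 → ℤ)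
    (hk : ∀ r, ‖pp (loop A) ((rho A h).val * wedge 0 2 * (rho A h).valᵀ) r *
      psi (loop A) ((rho A h⁻¹).val * UU (loop A) r * (rho A h⁻¹).valᵀ) - (k r : ℝ)‖ ≤ 1 / 80)
    (htie : ∀ a b c : ℤ, ¬(a = 0 ∧ b = 0 ∧ c = 0) → ∃ T : ℝ, (∀ r, x ^ ex a b c r ≤ T) ∧
      T / 2 ≤ |∑ r, (k r : ℝ) * x ^ ex a b c r|)
    (hs : 24 * ‖loop A‖ ≤ 1 / (480000 * C ^ 3) * (1 / (20000 * C ^ 3))) :
    ∀ β ∈ Subgroup.closure {σ 0 ^ N, σ 2 ^ N, del ^ (4 * N), h * σ 0 ^ N * h⁻¹},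
      rho A β = 1 → β = 1 := by
  let _ := actW
  have c1 : Commute (σ 0 ^ N) (σ 2 ^ N) := Commute.pow_pow (σ_comm 0 2 (by decide)) _ _
  have c2 : Commute (σ 0 ^ N) ((del ^ 4) ^ N) := del4_0.pow_pow _ _
  have c3 : Commute (σ 2 ^ N) ((del ^ 4) ^ N) := del4_2.pow_pow _ _
  have hC3 : 1 ≤ C ^ 3 := one_le_pow₀ hC
  have hx0 : 0 < x := by linarith
  set δ := 1 / (480000 * C ^ 3) with hδ
  set κ := 1 / (20000 * C ^ 3) with hκ
  have hδ0 : 0 < δ := by positivity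
  have hδκ : 24 * δ = κ := by rw [hδ, hκ]; field_simp; ring
  have hκ1 : κ ≤ 1 / 2 := one_div_le_one_div_of_le (by norm_num) (by linarith)
  have hn := norm_nonneg (loop A)
  have hτκ : ‖loop A‖ ≤ κ / 4 := by nlinarith
  have hτ1 : ‖loop A‖ ≤ 1 := by linarith
  let φ : ∀ i, Fac i →* B5
    | true => hom3 _ _ _ c1 c2 c3
    | false => zpowersHom B5 (h * σ 0 ^ N * h⁻¹)
  let X : Bool → Set M5
    | true => {W | Wᵀ = -W ∧ ∃ B, Bd W B ∧ κ * B < ‖psi (loop A) W‖}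
    | false => {W | Wᵀ = -W ∧ ∃ c : ℂ, c ≠ 0 ∧ Bd (W - c • wedge 0 2) (δ * ‖c‖)}
  have hdisj : ∀ W, W ∈ X true → W ∈ X false → False := by
    rintro W ⟨-, B, hB, h1⟩ ⟨-, c, hc, hE⟩
    have hc0 := norm_pos_iff.2 hc
    have e1 : W = c • wedge 0 2 + (W - c • wedge 0 2) := by abel
    have e2 : ‖psi (loop A) W‖ ≤ ‖c‖ * ‖loop A‖ ^ 2 + 6 * (δ * ‖c‖) := by
      rw [e1, psi_add, psi_smul, psi_wedge, ← norm_pow, ← norm_mul]
      exact norm_add_le_of_le le_rfl (psi_bd hτ1 hE)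
    have e3 : ‖c‖ ≤ B + δ * ‖c‖ := by
      have := norm_sub_le_of_le (hB 0 2) (hE 0 2)
      simpa [wedge] using this
    have e4 : ‖c‖ ≤ 2 * B := by nlinarith
    have e5 : ‖loop A‖ ^ 2 ≤ κ / 4 := by nlinarith
    nlinarith [mul_le_mul_of_nonneg_left e5 hc0.le, mul_le_mul_of_nonneg_left e4 hδ0.le]
  have key := faithful_of_pp φ ((rho A).comp (MulAut.conj h⁻¹).toMonoidHom)
    ⟨false, inferInstanceAs (Infinite (Multiplicative ℤ))⟩ X ?_ ?_ ?_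
    {σ 0 ^ N, σ 2 ^ N, del ^ (4 * N), h * σ 0 ^ N * h⁻¹} ?_
  · intro β hβ h1
    refine key β hβ ?_
    show rho A (h⁻¹ * β * h⁻¹⁻¹) = 1
    rw [map_mul, map_mul, h1, mul_one, ← map_mul, mul_inv_cancel, map_one]
  · rintro (_ | _)
    · exact ⟨wedge 0 2, wedge_anti, 1, one_ne_zero, fun p q => by simp [hδ0.le]⟩
    · refine ⟨wedge 3 1, by simp [wedge], 1, fun p q => ?_, ?_⟩
      · fin_cases p <;> fin_cases q <;> simp [wedge]
      · simp only [psi, wedge]; simp; linarith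
  · rintro (_ | _) (_ | _) hij W h1 h2
    · exact hij rfl
    · exact hdisj W h2 h1
    · exact hdisj W h1 h2
    · exact hij rfl
  · rintro (_ | _) (_ | _) hij p hp W hW
    · exact absurd rfl hij
    · obtain ⟨hA, B, hB, h1⟩ := hW
      suffices hT : ∀ n : ℤ, n ≠ 0 → (rho A (h⁻¹ * (h * σ 0 ^ N * h⁻¹) ^ n * h⁻¹⁻¹)).val * W *
          (rho A (h⁻¹ * (h * σ 0 ^ N * h⁻¹) ^ n * h⁻¹⁻¹)).valᵀ ∈ X false from
        hT (Multiplicative.toAdd (α := ℤ) p) hp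
      intro n hn0
      obtain ⟨c, hc, g⟩ := σ_zpow A hτ 0 (N * n)
      rw [_root_.zpow_mul, zpow_natCast, _root_.zpow_mul, zpow_natCast, hμ] at g
      have e : h⁻¹ * (h * σ 0 ^ N * h⁻¹) ^ n * h⁻¹⁻¹ = (σ 0 ^ N) ^ n := by
        rw [conj_zpow]; group
      refine ⟨anti_conj _ hA, ?_⟩
      have hy : 1 / 2 ≤ ‖(x : ℂ) ^ n - 1‖ := by
        have : ‖(x : ℂ) ^ n - 1‖ = |x ^ n - 1| := by rw [← Real.norm_eq_abs, ← norm_real]; simp
        rw [this]; exact zpow_half x hx n hn0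
      have hψ : psi (loop A) W ≠ 0 :=
        norm_pos_iff.1 (lt_of_le_of_lt (mul_nonneg (by linarith) hB.nonneg) h1)
      have hy0 : (x : ℂ) ^ n - 1 ≠ 0 := norm_pos_iff.1 (by linarith)
      refine ⟨c * c * (((x : ℂ) ^ n - 1) ^ 2 * psi (loop A) W), by positivity, ?_⟩
      rw [e, g, transpose_smul, smul_mul_assoc, smul_mul_smul_comm, T_ident _ _ hA, smul_add,
        smul_smul, add_sub_cancel_left, norm_mul (c * c), mul_left_comm]
      exact (T_step hδ0 hτ1 hs hy hB h1).smul _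
    · obtain ⟨hA, c, hc, hE⟩ := hW
      suffices hK : ∀ l m n : ℤ, ¬(l = 0 ∧ m = 0 ∧ n = 0) →
          (rho A (h⁻¹ * ((σ 0 ^ N) ^ l * (σ 2 ^ N) ^ m * ((del ^ 4) ^ N) ^ n) * h⁻¹⁻¹)).val * W *
          (rho A (h⁻¹ * ((σ 0 ^ N) ^ l * (σ 2 ^ N) ^ m * ((del ^ 4) ^ N) ^ n) * h⁻¹⁻¹)).valᵀ ∈
            X true from
        hK (Multiplicative.toAdd (α := ℤ × ℤ × ℤ) p).1 (Multiplicative.toAdd (α := ℤ × ℤ × ℤ) p).2.1
          (Multiplicative.toAdd (α := ℤ × ℤ × ℤ) p).2.2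
          fun h0 => hp (Prod.ext h0.1 (Prod.ext h0.2.1 h0.2.2))
      intro l m n h00
      have h0 : ¬(l = 0 ∧ m = 0 ∧ 2 * n = 0) := by omega
      obtain ⟨T, hT1, hT2⟩ := htie l m (2 * n) h0
      obtain ⟨d1, hd1, g1⟩ := σ_zpow A hτ 0 (N * l)
      obtain ⟨d2, hd2, g2⟩ := σ_zpow A hτ 2 (N * m)
      obtain ⟨d3, hd3, g3⟩ := del_zpow A hτ (N * n)
      rw [_root_.zpow_mul, zpow_natCast, _root_.zpow_mul, zpow_natCast, hμ] at g1 g2
      rw [_root_.zpow_mul, zpow_natCast, _root_.zpow_mul, zpow_natCast, ← pow_mul (mu A),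
        mul_comm 2 N, pow_mul, hμ, ← zpow_natCast (x : ℂ), ← _root_.zpow_mul, Nat.cast_ofNat] at g3
      refine ⟨anti_conj _ hA, ?_⟩
      have key := K_step hτ1 hC hH hV hk (fun r => zpow_pos hx0 _) hT1 hT2 hc hE
        ((d1 * d2 * d3 * loop A) * (d1 * d2 * d3 * loop A) * loop A ^ 2) (by positivity)
      have e : ∀ (G K H : M5) (s : ℂ), G * (s • K) * H * W * (G * (s • K) * H)ᵀ =
          (s * s) • (G * (K * (H * W * Hᵀ) * Kᵀ) * Gᵀ) := by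
        intro G K H s
        simp only [transpose_mul, transpose_smul, smul_mul_assoc, mul_smul_comm, smul_smul,
          mul_assoc]
      rw [inv_inv, map_mul, map_mul, map_mul, map_mul, Units.val_mul, Units.val_mul, Units.val_mul,
        Units.val_mul, g1, g2, g3, smul_mul_smul_comm, smul_mul_smul_comm, K_eq, smul_smul, e,
        K_ident _ _ _ _ (anti_conj _ hA), mul_smul_comm, smul_mul_assoc, smul_smul,
        Finset.mul_sum, Finset.sum_mul]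
      simp only [mul_smul_comm, smul_mul_assoc, lam_eq x hx0.ne']
      exact key
    · exact absurd rfl hij
  · rintro s (rfl | rfl | rfl | rfl)
    · exact ⟨true, Multiplicative.ofAdd (1, 0, 0), (hom3_apply c1 c2 c3 1 0 0).trans (by simp)⟩
    · exact ⟨true, Multiplicative.ofAdd (0, 1, 0), (hom3_apply c1 c2 c3 0 1 0).trans (by simp)⟩
    · exact ⟨true, Multiplicative.ofAdd (0, 0, 1),
        (hom3_apply c1 c2 c3 0 0 1).trans (by simp [pow_mul])⟩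
    · exact ⟨false, Multiplicative.ofAdd (1 : ℤ), _root_.zpow_one (h * σ 0 ^ N * h⁻¹)⟩

theorem partD (A : ℂˣ) (hA : Transcendental ℚ (A : ℂ)) (h : B5) (hu : cls h 1 ≠ 0)
    (hw : cls h 3 - cls h 1 ≠ 0) (hv : cls h 3 ≠ 0)
    (h1 : cls h 1 ^ 2 ≠ (cls h 3 - cls h 1) ^ 2) (h2 : cls h 1 ^ 2 ≠ cls h 3 ^ 2)
    (h3 : (cls h 3 - cls h 1) ^ 2 ≠ cls h 3 ^ 2) : ∃ N₀ : ℕ, ∀ N ≥ N₀,
    ∀ β ∈ Subgroup.closure {σ 0 ^ N, σ 2 ^ N, del ^ (4 * N), h * σ 0 ^ N * h⁻¹},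
      rho A β = 1 → β = 1 := by
  set k := cf (cls h 1) (cls h 3) with hk
  set x : ℝ := max 6 (2 * ∑ r, |(k r : ℝ)|) with hx
  have hx6 : 6 ≤ x := le_max_left _ _
  obtain ⟨B, hlim, hB⟩ := exists_seq x (by linarith)
  have hl := tendsto_loop hlim
  rw [loop_A0] at hl
  have hH := tendsto_rho hlim h
  have hI := tendsto_rho hlim h⁻¹
  have tr : ∀ {f : ℕ → M5} {M : M5}, Tendsto f atTop (𝓝 M) →
      Tendsto (fun n => (f n)ᵀ) atTop (𝓝 Mᵀ) := fun hf =>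
    ((continuous_id.matrix_transpose).tendsto _).comp hf
  have hV : ∀ r, Tendsto (fun n => (rho (B n) h⁻¹).val * UU (loop (B n)) r * (rho (B n) h⁻¹).valᵀ)
      atTop (𝓝 ((rho A0 h⁻¹).val * UU 0 r * (rho A0 h⁻¹).valᵀ)) := fun r =>
    (hI.mul (((continuous_UU r).tendsto _).comp hl)).mul (tr hI)
  have hW : Tendsto (fun n => (rho (B n) h).val * wedge 0 2 * (rho (B n) h).valᵀ) atTop
      (𝓝 ((rho A0 h).val * wedge 0 2 * (rho A0 h).valᵀ)) := (hH.mul_const _).mul (tr hH)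
  obtain ⟨C1, hC1, b1⟩ := exists_bd (κ := Unit) fun _ => hH
  obtain ⟨C2, -, b2⟩ := exists_bd hV
  have hC : 1 ≤ max C1 C2 := hC1.trans (le_max_left _ _)
  have he : ∀ r, ∀ᶠ n in atTop,
      ‖pp (loop (B n)) ((rho (B n) h).val * wedge 0 2 * (rho (B n) h).valᵀ) r *
        psi (loop (B n)) ((rho (B n) h⁻¹).val * UU (loop (B n)) r * (rho (B n) h⁻¹).valᵀ) -
        (k r : ℝ)‖ ≤ 1 / 80 := by
    intro r
    have e1 := ((continuous_pp r).tendsto _).comp (hl.prodMk_nhds hW)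
    have e2 := (continuous_psi.tendsto _).comp (hl.prodMk_nhds (hV r))
    have e3 := ((e1.mul e2).sub_const ((k r : ℝ) : ℂ)).norm
    rw [limit_cf, ← hk, ofReal_intCast, sub_self, norm_zero] at e3
    exact (e3.eventually (gt_mem_nhds (by norm_num : (0 : ℝ) < 1 / 80))).mono fun n hn => hn.le
  have hs : ∀ᶠ n in atTop, 24 * ‖loop (B n)‖ ≤
      1 / (480000 * max C1 C2 ^ 3) * (1 / (20000 * max C1 C2 ^ 3)) := by
    have e := hl.norm.const_mul 24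
    rw [norm_zero, mul_zero] at e
    exact (e.eventually (gt_mem_nhds (by positivity))).mono fun n hn => hn.le
  obtain ⟨N₀, hN⟩ := eventually_atTop.1 (b1.and (b2.and ((eventually_all.2 he).and
    (hs.and (eventually_ge_atTop 1)))))
  refine ⟨N₀, fun N hN' β hβ h0 => ?_⟩
  obtain ⟨k1, k2, k3, k4, k5⟩ := hN N hN'
  refine D_fixed h (B N) N x hx6 (hB N k5).1 (hB N k5).2 _ hC ((k1 ()).mono (le_max_left _ _))
    (fun r => (k2 r).mono (le_max_right _ _)) k k3 (fun a b c habc => ?_) k4 β hβ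
    (specialise A hA _ β h0)
  obtain ⟨M, m1, m2⟩ := tie a b c habc _ _ hu hw hv h1 h2 h3
  exact ⟨x ^ M, tie_bound _ _ M m1 m2 x (by linarith) (le_max_right _ _)⟩

end Pool.Agent.P.MP_0bb74b_gt
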