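import Pool.Agent.P.MP_0bb74b_gt.Lim

/-! Ping-pong for finitely many pairs of commuting half twists in the four strand subgroup. -/

namespace Pool.Agent.P.MP_0bb74b_gt

open Matrix Filter Topology Complex

/-- The action on column vectors. -/
@[reducible] noncomputable def actV : MulAction (GL (Fin 5) ℂ) (Fin 5 → ℂ) where
  smul g v := g.val *ᵥ v
  one_smul v := one_mulVec v
  mul_smul g h v := (mulVec_mulVec v g.val h.val).symm

/-- The subgroup of braids on the first four strands. -/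
abbrev B4 : Subgroup B5 := Subgroup.closure {σ 0, σ 1, σ 2}

lemma B4_induction {p : B5 → Prop} (h1 : p 1) (hσ : ∀ i : Fin 4, i ≠ 3 → p (σ i))
    (hi : ∀ i : Fin 4, i ≠ 3 → p (σ i)⁻¹) (hm : ∀ x y, p x → p y → p (x * y)) :
    ∀ β ∈ B4, p β := by
  intro β hβ
  induction hβ using Subgroup.closure_induction'' with
  | one => exact h1
  | mem x hx => rcases hx with rfl | rfl | rfl <;> exact hσ _ (by decide)
  | inv_mem x hx => rcases hx with rfl | rfl | rfl <;> exact hi _ (by decide)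
  | mul x y _ _ hx hy => exact hm x y hx hy

lemma tl_tl4 (τ : ℂ) (i : Fin 4) (hi : i ≠ 3) : tl4 τ * tl τ i = tl τ i * tl4 τ := by
  fin_cases i <;> first | exact absurd rfl hi | skip
  all_goals
    simp only [Fin.zero_eta, Fin.mk_one, Fin.reduceFinMk, tl0, tl1, tl2, tl4]
    ext p q
    fin_cases p <;> fin_cases q <;> simp [Matrix.mul_apply, Fin.sum_univ_five]

lemma rho_tl4 (A : ℂˣ) : ∀ β ∈ B4,
    tl4 (loop A) * (rho A β).val = (rho A β).val * tl4 (loop A) := by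
  refine B4_induction (by simp) (fun i hi => ?_) (fun i hi => ?_) fun x y hx hy => ?_
  · simp [rho_σ, gen_val, mul_add, add_mul, tl_tl4 _ i hi]
  · rw [map_inv, rho_σ, gen_inv_val]
    simp [mul_add, add_mul, tl_tl4 _ i hi]
  · rw [map_mul, Units.val_mul, ← mul_assoc, hx, mul_assoc, hy, mul_assoc]

lemma ker_inv (A : ℂˣ) {β : B5} (hβ : β ∈ B4) {v : Fin 5 → ℂ} (hv : tl4 (loop A) *ᵥ v = 0) :
    tl4 (loop A) *ᵥ ((rho A β).val *ᵥ v) = 0 := by
  rw [mulVec_mulVec, rho_tl4 A β hβ, ← mulVec_mulVec, hv, mulVec_zero]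

/-- The vector of a homology class in the invariant plane at the limit parameter. -/
def wv (b : Fin 4 → ℤ) : Fin 5 → ℂ := ![(b 0 : ℂ) - b 2, 0, 0, -I * b 1, 0]

lemma transv_val (i : Fin 4) : (transv i).val = 1 + vecMulVec (a i) (form i) := rfl
lemma transv_inv_val (i : Fin 4) : (transv i)⁻¹.val = 1 - vecMulVec (a i) (form i) := rfl

lemma wv_equiv : ∀ β ∈ B4, ∃ s : ℂ, ‖s‖ = 1 ∧ ∀ b : Fin 4 → ℤ, b 3 = 0 →
    ((sp β).val *ᵥ b) 3 = 0 ∧ (rho A0 β).val *ᵥ wv b = s • wv ((sp β).val *ᵥ b) := by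
  refine B4_induction ⟨1, by simp, fun b hb => by simp [hb]⟩ (fun i hi => ?_) (fun i hi => ?_)
    fun x y hx hy => ?_
  · refine ⟨A0, A0_norm, fun b hb => ?_⟩
    rw [rho_σ, gen_A0, sp_σ, transv_val, smul_mulVec]
    fin_cases i <;> first | exact absurd rfl hi | skip
    all_goals
      simp only [Fin.zero_eta, Fin.mk_one, Fin.reduceFinMk, tl0, tl1, tl2]
      refine ⟨by simp [mulVec, dotProduct, a, form, vecMulVec, hb,
        Matrix.one_apply], ?_⟩
      congr 1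
      ext p
      fin_cases p <;> simp [wv, mulVec, dotProduct, Fin.sum_univ_four, Fin.sum_univ_five, a, form,
        vecMulVec, hb, Matrix.one_apply] <;> apply Complex.ext <;> simp <;> ring
  · refine ⟨(A0 : ℂ)⁻¹, by simp [A0_norm], fun b hb => ?_⟩
    rw [map_inv, map_inv, rho_σ, gen_inv_A0, sp_σ, transv_inv_val, smul_mulVec]
    fin_cases i <;> first | exact absurd rfl hi | skip
    all_goals
      simp only [Fin.zero_eta, Fin.mk_one, Fin.reduceFinMk, tl0, tl1, tl2]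
      refine ⟨by simp [mulVec, dotProduct, a, form, vecMulVec, hb,
        Matrix.one_apply], ?_⟩
      congr 1
      ext p
      fin_cases p <;> simp [wv, mulVec, dotProduct, Fin.sum_univ_four, Fin.sum_univ_five, a, form,
        vecMulVec, hb, Matrix.one_apply] <;> apply Complex.ext <;> simp <;> ring
  · obtain ⟨s, hs, hx⟩ := hx
    obtain ⟨t, ht, hy⟩ := hy
    refine ⟨t * s, by simp [hs, ht], fun b hb => ?_⟩
    obtain ⟨h1, h2⟩ := hy b hb
    obtain ⟨h3, h4⟩ := hx _ h1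
    simp only [map_mul, Units.val_mul, ← mulVec_mulVec]
    exact ⟨h3, by rw [h2, mulVec_smul, h4, smul_smul]⟩

lemma inter_inv (β : B5) : ∀ u v, inter ((sp β).val *ᵥ u) ((sp β).val *ᵥ v) = inter u v := by
  have hβ : β ∈ Subgroup.closure (Set.range σ) := by rw [closure_σ]; trivial
  induction hβ using Subgroup.closure_induction'' with
  | one => simp
  | mem x hx =>
    obtain ⟨i, rfl⟩ := hx
    intro u v
    rw [sp_σ, transv_val]
    fin_cases i <;> simp [inter, mulVec, dotProduct, Fin.sum_univ_four, a, form, vecMulVec,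
      Matrix.one_apply] <;> ring
  | inv_mem x hx =>
    obtain ⟨i, rfl⟩ := hx
    intro u v
    rw [map_inv, sp_σ, transv_inv_val]
    fin_cases i <;> simp [inter, mulVec, dotProduct, Fin.sum_univ_four, a, form, vecMulVec,
      Matrix.one_apply] <;> ring
  | mul x y _ _ hx hy =>
    intro u v
    simp only [map_mul, Units.val_mul, ← mulVec_mulVec, hx, hy]

lemma inter_a0 (b : Fin 4 → ℤ) : inter (a 0) b = b 1 := by
  simp [inter, mulVec, dotProduct, Fin.sum_univ_four, a, form]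

lemma cls_one (g h : B5) : cls (g⁻¹ * h) 1 = inter (cls g) (cls h) := by
  rw [← inter_a0 (cls _), ← inter_inv g, cls, cls, cls, mulVec_mulVec, ← Units.val_mul, ← map_mul,
    mul_inv_cancel_left]

lemma limit_col {β : B5} (hβ : β ∈ B4) : ∃ D : ℂ, ‖D‖ = |(cls β 1 : ℝ)| ∧
    (rho A0 β).val 3 0 = D ∧ (rho A0 β).val 2 0 = 0 ∧ (rho A0 β).val 4 0 = 0 := by
  obtain ⟨s, hs, h⟩ := wv_equiv β hβ
  have h1 := (h (a 0) (by simp [a])).2
  have h2 : wv (a 0) = Pi.single 0 1 := by ext p; fin_cases p <;> simp [wv, a]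
  rw [h2, mulVec_single_one] at h1
  refine ⟨s * (-I * cls β 1), by simp [hs], ?_, ?_, ?_⟩
  · simpa [wv, cls] using congrFun h1 3
  · simpa [wv] using congrFun h1 2
  · simpa [wv] using congrFun h1 4

lemma X_step (τ y z : ℂ) (v : Fin 5 → ℂ) (hv : tl4 τ *ᵥ v = 0) :
    ((τ • (1 : M5) + y • tl τ 0) * (τ • 1 + z • tl τ 2)) *ᵥ v =
      τ • ((y * (v 3 - v 2) + z * (v 3 - v 4)) • Pi.single 0 1 +
        τ • (v - (y * (v 3 - v 2)) • Pi.single 2 1 - (z * (v 3 - v 4)) • Pi.single 4 1)) := by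
  have h0 := congrFun hv 0
  have h3 := congrFun hv 3
  simp [tl4, mulVec, dotProduct, Fin.sum_univ_five] at h0 h3
  have h1 : v 1 = -τ * v 3 := by linear_combination h3
  have h4 : v 4 = -τ * v 0 - v 2 := by linear_combination h0
  rw [← mulVec_mulVec, tl0, tl2]
  ext p
  fin_cases p <;> simp [mulVec, dotProduct, Fin.sum_univ_five, Matrix.one_apply, h1, h4] <;>
    first | ring1 | (left; ring1)

/-- The homomorphism defined by two commuting elements. -/
def hom2 (g g' : B5) (hc : Commute g g') : Multiplicative (ℤ × ℤ) →* B5 :=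
  MonoidHom.mk' (fun p => g ^ p.toAdd.1 * g' ^ p.toAdd.2) fun p q => by
    simp only [toAdd_mul, Prod.fst_add, Prod.snd_add, _root_.zpow_add]
    exact ((hc.zpow_zpow _ _).mul_mul_mul_comm _ _)

lemma sub_le_two (v : Fin 5 → ℂ) (p q : Fin 5) : ‖v p - v q‖ ≤ 2 * ‖v‖ :=
  (norm_sub_le _ _).trans (by linarith [norm_le_pi_norm v p, norm_le_pi_norm v q])

lemma norm_single_one (p : Fin 5) : ‖(Pi.single p 1 : Fin 5 → ℂ)‖ = 1 := by
  rw [Pi.norm_single, norm_one]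

lemma X_core {G : M5} {C : ℝ} (hC : 1 ≤ C) (hG : Bd G C) {D : ℂ} {w : Fin 5 → ℂ} {c : ℂ}
    (hw : ‖w - c • Pi.single 0 1‖ ≤ 1 / (200 * C) * ‖c‖) (q : Fin 5)
    (hD : ‖G 3 0 - G q 0 - D‖ ≤ 1 / 16) :
    ‖G *ᵥ w‖ ≤ 10 * C * ‖c‖ ∧ ‖(G *ᵥ w) 3 - (G *ᵥ w) q - c * D‖ ≤ ‖c‖ / 8 := by
  have hc := norm_nonneg c
  have hδ : 1 / (200 * C) ≤ 1 := by rw [div_le_one (by linarith)]; linarith
  constructor
  · have h1 : ‖w‖ ≤ 2 * ‖c‖ := by
      have := norm_add_le (w - c • Pi.single 0 1) (c • Pi.single 0 1)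
      rw [sub_add_cancel, norm_smul, norm_single_one] at this
      nlinarith
    have := hG.mulVec w
    nlinarith
  · set η := w - c • Pi.single 0 1 with hη
    have h1 : w = c • Pi.single 0 1 + η := by rw [hη]; abel
    have h2 : (G *ᵥ w) 3 - (G *ᵥ w) q - c * D =
        c * (G 3 0 - G q 0 - D) + ((G *ᵥ η) 3 - (G *ᵥ η) q) := by
      rw [h1, mulVec_add, mulVec_smul, mulVec_single_one]
      simp; ring
    have h3 := (sub_le_two (G *ᵥ η) 3 q).trans
      (mul_le_mul_of_nonneg_left (hG.mulVec η) (by norm_num))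
    have h4 : 5 * C * ‖η‖ ≤ ‖c‖ / 40 := by
      refine (mul_le_mul_of_nonneg_left hw (by linarith)).trans (le_of_eq ?_)
      field_simp; ring
    rw [h2]
    refine (norm_add_le _ _).trans ?_
    rw [norm_mul]
    nlinarith

lemma X_fixed {ι : Type} [Nontrivial ι] (h : ι → B5) (hB : ∀ j, h j ∈ B4) (A : ℂˣ) (N : ℕ) (x : ℝ)
    (hx : 6 ≤ x) (hμ : mu A ^ N = x) (hτ : loop A ≠ 0) (C : ℝ) (hC : 1 ≤ C)
    (hbd : ∀ j k, Bd (rho A ((h j)⁻¹ * h k)).val C) (D : ι → ι → ℂ)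
    (hD : ∀ j k, j ≠ k → 1 ≤ ‖D j k‖)
    (h2 : ∀ j k, ‖(rho A ((h j)⁻¹ * h k)).val 3 0 - (rho A ((h j)⁻¹ * h k)).val 2 0 - D j k‖ ≤ 1 / 16)
    (h4 : ∀ j k, ‖(rho A ((h j)⁻¹ * h k)).val 3 0 - (rho A ((h j)⁻¹ * h k)).val 4 0 - D j k‖ ≤ 1 / 16)
    (hs : ‖loop A‖ ≤ 1 / (40000 * C ^ 2)) :
    ∀ β ∈ Subgroup.closure (⋃ j, {h j * σ 0 ^ N * (h j)⁻¹, h j * σ 2 ^ N * (h j)⁻¹}),
      rho A β = 1 → β = 1 := by
  let _ := actV
  have hc02 : Commute (σ 0 ^ N) (σ 2 ^ N) := Commute.pow_pow (σ_comm 0 2 (by decide)) _ _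
  have hC0 : 0 < C := by linarith
  let X : ι → Set (Fin 5 → ℂ) := fun j => {v | tl4 (loop A) *ᵥ v = 0 ∧ ∃ c : ℂ, c ≠ 0 ∧
    ‖(rho A (h j)⁻¹).val *ᵥ v - c • Pi.single 0 1‖ ≤ 1 / (200 * C) * ‖c‖}
  have hG : ∀ j k v, (rho A (h j)⁻¹).val *ᵥ v =
      (rho A ((h j)⁻¹ * h k)).val *ᵥ ((rho A (h k)⁻¹).val *ᵥ v) := by
    intro j k v
    rw [mulVec_mulVec, ← Units.val_mul, ← map_mul, mul_inv_cancel_right]
  refine faithful_of_pp (H := fun _ => Multiplicative (ℤ × ℤ))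
    (fun j => (MulAut.conj (h j)).toMonoidHom.comp (hom2 _ _ hc02)) (rho A)
    ⟨Classical.arbitrary ι, inferInstance⟩ X (fun j => ?_) (fun j k hjk v hj hk => ?_)
    (fun j k hjk p hp v hv => ?_) _ fun s hs => ?_
  · refine ⟨(rho A (h j)).val *ᵥ (Pi.single 0 1 - loop A • Pi.single 2 1),
      ker_inv A (hB j) ?_, 1, one_ne_zero, ?_⟩
    · ext p
      fin_cases p <;> simp [tl4, mulVec, dotProduct, Fin.sum_univ_five]
    · rw [mulVec_mulVec, ← Units.val_mul, ← map_mul, inv_mul_cancel, map_one, Units.val_one,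
        one_mulVec, one_smul, sub_sub_cancel_left, norm_neg, norm_smul, norm_single_one, norm_one]
      refine mul_le_mul_of_nonneg_right (hs.trans ?_) zero_le_one
      exact one_div_le_one_div_of_le (by positivity) (by nlinarith)
  · obtain ⟨-, c', hc', hj⟩ := hj
    obtain ⟨-, c, hc, hk⟩ := hk
    obtain ⟨e1, e2⟩ := X_core hC (hbd j k) hk 2 (h2 j k)
    rw [← hG] at e1 e2
    set w := (rho A (h j)⁻¹).val *ᵥ v
    have hδ : 1 / (200 * C) ≤ 1 / 2 := one_div_le_one_div_of_le (by norm_num) (by linarith)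
    have hc0 := norm_pos_iff.2 hc
    have hc1 := norm_pos_iff.2 hc'
    have f1 : ‖w 3 - w 2‖ ≤ 2 * (1 / (200 * C) * ‖c'‖) := by
      have := sub_le_two (w - c' • Pi.single 0 1) 3 2
      simp only [Pi.sub_apply, Pi.smul_apply, ne_eq, Fin.reduceEq, not_false_eq_true,
        Pi.single_eq_of_ne, smul_zero, sub_zero] at this
      linarith
    have f2 : ‖c'‖ ≤ 2 * ‖w‖ := by
      have := norm_sub_le w (w - c' • Pi.single 0 1)
      rw [sub_sub_cancel, norm_smul, norm_single_one] at this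
      nlinarith
    have f3 : 2 * (1 / (200 * C) * ‖c'‖) ≤ ‖c‖ / 5 := by
      rw [show 2 * (1 / (200 * C) * ‖c'‖) = ‖c'‖ / (100 * C) by field_simp; ring,
        div_le_div_iff₀ (by positivity) (by norm_num)]
      nlinarith
    have f4 := norm_sub_le (w 3 - w 2) (w 3 - w 2 - c * D j k)
    rw [sub_sub_cancel, norm_mul] at f4
    nlinarith [hD j k hjk]
  · obtain ⟨hS, c, hc, hk⟩ := hv
    obtain ⟨e1, e2⟩ := X_core hC (hbd j k) hk 2 (h2 j k)
    obtain ⟨-, e4⟩ := X_core hC (hbd j k) hk 4 (h4 j k)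
    rw [← hG] at e1 e2 e4
    have hw := ker_inv A (B4.inv_mem (hB j)) hS
    have m0 : σ 0 ∈ B4 := Subgroup.subset_closure (by simp)
    have m2 : σ 2 ∈ B4 := Subgroup.subset_closure (by simp)
    set m := p.toAdd.1
    set n := p.toAdd.2
    have hmn : ¬(m = 0 ∧ n = 0) := fun h0 => hp (Prod.ext h0.1 h0.2)
    obtain ⟨c1, hc1, g1⟩ := σ_zpow A hτ 0 (N * m)
    obtain ⟨c2, hc2, g2⟩ := σ_zpow A hτ 2 (N * n)
    rw [_root_.zpow_mul, zpow_natCast, _root_.zpow_mul, zpow_natCast, hμ] at g1 g2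
    show (rho A (h j * ((σ 0 ^ N) ^ m * (σ 2 ^ N) ^ n) * (h j)⁻¹)).val *ᵥ v ∈ X j
    refine ⟨ker_inv A (B4.mul_mem (B4.mul_mem (hB j) (B4.mul_mem (B4.zpow_mem (B4.pow_mem m0 _) _)
      (B4.zpow_mem (B4.pow_mem m2 _) _))) (B4.inv_mem (hB j))) hS, ?_⟩
    rw [mulVec_mulVec, ← Units.val_mul, ← map_mul, ← mul_assoc, inv_mul_cancel_left, map_mul,
      Units.val_mul, ← mulVec_mulVec, map_mul, Units.val_mul, g1, g2, smul_mul_smul_comm,
      smul_mulVec, X_step _ _ _ _ hw]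
    set w := (rho A (h j)⁻¹).val *ᵥ v
    obtain ⟨p1, p2⟩ := zpow_pair x hx m n hmn
    have ny : ‖(x : ℂ) ^ m - 1‖ = |x ^ m - 1| := by rw [← Real.norm_eq_abs, ← norm_real]; simp
    have nz : ‖(x : ℂ) ^ n - 1‖ = |x ^ n - 1| := by rw [← Real.norm_eq_abs, ← norm_real]; simp
    have nyz : ‖(x : ℂ) ^ m - 1 + ((x : ℂ) ^ n - 1)‖ = |x ^ m - 1 + (x ^ n - 1)| := by
      rw [← Real.norm_eq_abs, ← norm_real]; simp
    rw [← ny, ← nz] at p1
    rw [← ny, ← nz, ← nyz] at p2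
    generalize (x : ℂ) ^ m - 1 = y at *
    generalize (x : ℂ) ^ n - 1 = z at *
    have hc0 := norm_pos_iff.2 hc
    have hy := norm_nonneg y
    have hz := norm_nonneg z
    set L := y * (w 3 - w 2) + z * (w 3 - w 4) with hL
    have l1 : (‖y‖ + ‖z‖) * ‖c‖ / 5 ≤ ‖L‖ := by
      have q1 : (y + z) * (c * D j k) =
          L - (y * (w 3 - w 2 - c * D j k) + z * (w 3 - w 4 - c * D j k)) := by rw [hL]; ring
      have q2 := norm_sub_le L (y * (w 3 - w 2 - c * D j k) + z * (w 3 - w 4 - c * D j k))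
      have q3 := norm_add_le (y * (w 3 - w 2 - c * D j k)) (z * (w 3 - w 4 - c * D j k))
      rw [← q1] at q2
      simp only [norm_mul] at q2 q3
      have q4 := mul_le_mul_of_nonneg_left e2 hy
      have q5 := mul_le_mul_of_nonneg_left e4 hz
      have q6 : ‖c‖ ≤ ‖c‖ * ‖D j k‖ := le_mul_of_one_le_right hc0.le (hD j k hjk)
      have q7 := mul_le_mul_of_nonneg_left q6 (norm_nonneg (y + z))
      have q8 := mul_le_mul_of_nonneg_right p2 hc0.le
      nlinarith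
    have l0 : L ≠ 0 := norm_pos_iff.1 (lt_of_lt_of_le (by positivity) l1)
    refine ⟨c1 * c2 * loop A * L, by positivity, ?_⟩
    rw [smul_smul, smul_add, smul_smul, add_sub_cancel_left, norm_smul, norm_smul, norm_mul _ L,
      mul_left_comm (1 / (200 * C))]
    refine mul_le_mul_of_nonneg_left ?_ (norm_nonneg _)
    have r1 := (norm_sub_le _ _).trans (add_le_add_left
      (norm_sub_le w ((y * (w 3 - w 2)) • Pi.single 2 1)) ‖(z * (w 3 - w 4)) • (Pi.single 4 1 : Fin 5 → ℂ)‖)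
    simp only [norm_smul, norm_single_one, norm_mul, mul_one] at r1
    have r2 := mul_le_mul_of_nonneg_left (sub_le_two w 3 2) hy
    have r3 := mul_le_mul_of_nonneg_left (sub_le_two w 3 4) hz
    have r4 : ‖w - (y * (w 3 - w 2)) • Pi.single 2 1 - (z * (w 3 - w 4)) • Pi.single 4 1‖ ≤
        40 * C * ((‖y‖ + ‖z‖) * ‖c‖) := by
      have := mul_le_mul_of_nonneg_left e1 (add_nonneg hy hz)
      have := mul_le_mul_of_nonneg_right p1 (mul_pos hC0 hc0).le
      nlinarith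
    calc _ ≤ 1 / (40000 * C ^ 2) * (40 * C * ((‖y‖ + ‖z‖) * ‖c‖)) :=
          mul_le_mul hs r4 (norm_nonneg _) (by positivity)
      _ = 1 / (200 * C) * ((‖y‖ + ‖z‖) * ‖c‖ / 5) := by field_simp; ring
      _ ≤ _ := mul_le_mul_of_nonneg_left l1 (by positivity)
  · obtain ⟨j, hj⟩ := Set.mem_iUnion.1 hs
    rcases hj with rfl | rfl
    · exact ⟨j, Multiplicative.ofAdd (1, 0), by simp [hom2]⟩
    · exact ⟨j, Multiplicative.ofAdd (0, 1), by simp [hom2]⟩

theorem partX (A : ℂˣ) (hA : Transcendental ℚ (A : ℂ)) {ι : Type} [Finite ι] [Nontrivial ι]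
    (h : ι → B5) (hB : ∀ j, h j ∈ B4) (hI : ∀ j k, j ≠ k → inter (cls (h j)) (cls (h k)) ≠ 0) :
    ∃ N₀ : ℕ, ∀ N ≥ N₀,
      ∀ β ∈ Subgroup.closure (⋃ j, {h j * σ 0 ^ N * (h j)⁻¹, h j * σ 2 ^ N * (h j)⁻¹}),
        rho A β = 1 → β = 1 := by
  obtain ⟨B, hlim, hB'⟩ := exists_seq 6 (by norm_num)
  have ht := fun t : ι × ι => tendsto_rho hlim ((h t.1)⁻¹ * h t.2)
  obtain ⟨C, hC, hbd⟩ := exists_bd ht
  choose D hD d3 d2 d4 using fun j k => limit_col (B4.mul_mem (B4.inv_mem (hB j)) (hB k))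
  have he : ∀ (t : ι × ι) (q : Fin 5), (rho A0 ((h t.1)⁻¹ * h t.2)).val q 0 = 0 → ∀ᶠ n in atTop,
      ‖(rho (B n) ((h t.1)⁻¹ * h t.2)).val 3 0 - (rho (B n) ((h t.1)⁻¹ * h t.2)).val q 0 -
        D t.1 t.2‖ ≤ 1 / 16 := by
    intro t q hq
    have h1 := fun p => tendsto_pi_nhds.1 (tendsto_pi_nhds.1 (ht t) p) 0
    have h2 := (((h1 3).sub (h1 q)).sub_const (D t.1 t.2)).norm
    rw [hq, d3, sub_zero, sub_self, norm_zero] at h2
    exact (h2.eventually (gt_mem_nhds (by norm_num : (0 : ℝ) < 1 / 16))).mono fun n hn => hn.le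
  have hs : ∀ᶠ n in atTop, ‖loop (B n)‖ ≤ 1 / (40000 * C ^ 2) := by
    have h2 := (tendsto_loop hlim).norm
    rw [loop_A0, norm_zero] at h2
    exact (h2.eventually (gt_mem_nhds (by positivity))).mono fun n hn => hn.le
  obtain ⟨N₀, hN⟩ := eventually_atTop.1 (hbd.and ((eventually_all.2 fun t => he t 2 (d2 _ _)).and
    ((eventually_all.2 fun t => he t 4 (d4 _ _)).and (hs.and (eventually_ge_atTop 1)))))
  refine ⟨N₀, fun N hN' β hβ h1 => ?_⟩
  obtain ⟨k1, k2, k3, k4, k5⟩ := hN N hN'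
  refine X_fixed h hB (B N) N 6 le_rfl (hB' N k5).1 (hB' N k5).2 C hC (fun j k => k1 (j, k)) D
    (fun j k hjk => ?_) (fun j k => k2 (j, k)) (fun j k => k3 (j, k)) k4 β hβ
    (specialise A hA _ β h1)
  rw [hD, cls_one, ← Int.cast_abs]
  exact_mod_cast Int.one_le_abs (hI j k hjk)

end Pool.Agent.P.MP_0bb74b_gt
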